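import Mathlib

/-!
# The finite check behind the lemma on four functions

An endpoint of a pair of hats is described by a symbol `s < 5`: `0`, `1` are hats of fixed colour,
`2`, `3`, `4` the three hats of the triple; `b < 8` is a setting of the triple.  A pair of symbols is
coded by `e = 5 * u + v < 25`.  All quadruples of codes are checked by the kernel, using packed
tables.
-/

set_option autoImplicit false

namespace Pool.Agent.Lib.MP_e6e31f_sep

/-- value of the symbol `s` in the setting `b` -/
def val (s b : ℕ) : ℕ := if s < 2 then s else (b >>> (s - 2)) % 2

/-- difference of the two values of the pair with code `e`, plus one -/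
def ev (e b : ℕ) : ℕ := val (e / 5) b + 1 - val (e % 5) b

/-- distance -/
def ad (x y : ℕ) : ℕ := (x - y) + (y - x)

/-- `0` if both hats are in the triple, else `1` -/
def nt (e : ℕ) : ℕ := if 2 ≤ e / 5 ∧ 2 ≤ e % 5 then 0 else 1

/-- `1` if both hats are outside the triple, else `0` -/
def ot (e : ℕ) : ℕ := if e / 5 < 2 ∧ e % 5 < 2 then 1 else 0

/-- maximum of two differences at the setting `t` -/
def mpn (a b c d t : ℕ) : ℕ := max (ad (ev a t) (ev b t)) (ad (ev c t) (ev d t))

/-- the six maxima -/
def Ns (e0 e1 e2 e3 : ℕ) : ℕ :=
  (mpn e0 e2 e1 e3 1 + mpn e0 e2 e1 e3 6) + (mpn e0 e3 e1 e2 2 + mpn e0 e3 e1 e2 5) +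
    (mpn e0 e1 e2 e3 4 + mpn e0 e1 e2 e3 3)

/-- the two sums -/
def Cs (e0 e1 e2 e3 : ℕ) : ℕ :=
  ad (ev e0 0 + ev e1 0 + ev e2 0 + ev e3 0) 4 + ad (ev e0 7 + ev e1 7 + ev e2 7 + ev e3 7) 4

/-- number of pairs not inside the triple -/
def ms (e0 e1 e2 e3 : ℕ) : ℕ := nt e0 + nt e1 + nt e2 + nt e3

/-- number of pairs outside the triple -/
def os (e0 e1 e2 e3 : ℕ) : ℕ := ot e0 + ot e1 + ot e2 + ot e3

/-- number of pairs outside the triple with two colours -/
def ws (e0 e1 e2 e3 : ℕ) : ℕ :=
  ot e0 * ad (ev e0 0) 1 + ot e1 * ad (ev e1 0) 1 + ot e2 * ad (ev e2 0) 1 + ot e3 * ad (ev e3 0) 1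

/-- the inequality for one quadruple -/
def Ineq (e0 e1 e2 e3 : ℕ) : Prop :=
  ms e0 e1 e2 e3 ≤ 1 ∨
    ms e0 e1 e2 e3 * (Ns e0 e1 e2 e3 + os e0 e1 e2 e3) +
      (ms e0 e1 e2 e3 - 1) * Cs e0 e1 e2 e3 ≤ ms e0 e1 e2 e3 * (12 + (ws e0 e1 e2 e3 + ws e0 e1 e2 e3))

/-- packed table of the differences -/
def TD : ℕ := 3443314225398660669325369128471189096497658944214676238910812558106165745971103069914960376936682718942354288383304892479646729446176183950958565773775228838763600337642612463192567701814307859487432498216731776801542712844322463707434570341082737144250470356312301713457048936322155070600383510816683913700720701602525953527469735120815544238080467399686704926354502427196566585269577736964036717512153355519420606464284563975772742750278683879782970639295473075286088310947729364682605549573101387602600583052321672304483543582001741229970175952737479522751196057971761696577968479593726120393043854426967541809116212744948083370377340400802549184935340242500995229154940109724494617892755726263225441628933006880331052856603010260791843792561842447593338103254728138788251215186657588538000998339084592042189157558832389280621053683016029059437888029934716000190388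146767205661625300712465868704821397873579097598523743214229342215380945823498874618935204876803500557396869134745317088340783189979477929317139029870362347722720935114595061024435461516755110772966962433617568899783764309200349903229784608792671727233567148671740283111122956556464332552305544680140841864389696416616754052957180197595660687029084412854695339254600167263224303572670326311040863282265189341906927085666077901395892410522096076497681079343664648792165951768487137410048047212289903976075830962331002965077758401232122653713978049403894170844901454013837327951909990564554414680573337156857027488686511513044010198048784959336282385119895889565246877069588617818886778345042870901837753254506879747091659185199873862548286657194363009701807058418644364107477331085606782374140277359763082541149162441140185599443107448696179756414402810234222285218555899026073109045760672404076528946346175633582786649968061951981651509876157873195980661144912927121476179110311396786951507965980691011281616382908083411690439142653753252562840189626925952752700227722550441044143806713569750102009066752938141127388666426125728697050794925203704687406806435674435568395746266755692081922538576554605541054206313476469007102008589502260157599901322062758377932989499265186202464556841316602013702746330291705441620285034636654085269983143739364142222057362336986076780792783522679242752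
/-- packed table of the sums -/
def TK : ℕ := 53069775966654185455712544553172837952983076680376293475653333421058826543280848561988224278287351612641379151904974747949959607597856956044284177
/-- packed table of the maxima -/
def TM : ℕ := 245700678695743683018353623382765362623835462755265232918369827617920020549963767477816740164329892491518306018655120670533240628803052004676431596097194615618277904
/-- packed table of the distances from four -/
def TZ : ℕ := 487306471048706229806453273558974909502740268566483738077114114059128814454312753673191976553395295679383032197182141246746592391723974562292630796889619031292925560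

/-- entry of the first table -/
def D (e f : ℕ) : ℕ :=
  Nat.land (Nat.shiftRight TD (Nat.mul 12 (Nat.add (Nat.mul 25 e) f))) 4095
/-- first digit -/
def DA (e f : ℕ) : ℕ := Nat.land (D e f) 15
/-- second digit -/
def DB (e f : ℕ) : ℕ := Nat.land (Nat.shiftRight (D e f) 4) 15
/-- third digit -/
def DC (e f : ℕ) : ℕ := Nat.shiftRight (D e f) 8
/-- entry of the second table -/
def K (e : ℕ) : ℕ := Nat.land (Nat.shiftRight TK (Nat.mul 20 e)) 1048575
/-- entry of the third table -/
def M (x y : ℕ) : ℕ := Nat.land (Nat.shiftRight TM (Nat.mul 4 (Nat.add (Nat.mul 16 x) y))) 15
/-- entry of the fourth table -/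
def Z (x : ℕ) : ℕ := Nat.land (Nat.shiftRight TZ (Nat.mul 4 x)) 15

/-- final comparison -/
def fin2 (N m o w c : ℕ) : Bool :=
  Nat.ble (Nat.add (Nat.mul m (Nat.add N o)) (Nat.mul (Nat.sub m 1) c))
    (Nat.mul m (Nat.add 12 (Nat.add w w)))
/-- comparison, trivial if there is at most one pair not inside the triple -/
def fin1 (N k : ℕ) : Bool :=
  Bool.rec (fin2 N (Nat.land (Nat.shiftRight k 8) 15) (Nat.land (Nat.shiftRight k 12) 15)
    (Nat.shiftRight k 16) (Z (Nat.land k 255))) true (Nat.ble (Nat.land (Nat.shiftRight k 8) 15) 1)
/-- check of one quadruple -/
def inner (e0 e1 e2 a02 b12 c01 k e3 : ℕ) : Bool :=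
  fin1 (Nat.add (Nat.add (M a02 (DA e1 e3)) (M (DB e0 e3) b12)) (M c01 (DC e2 e3)))
    (Nat.add k (K e3))
/-- conjunction of `p 0, ..., p (n - 1)` -/
def allb (p : ℕ → Bool) (n : ℕ) : Bool :=
  Nat.rec true (fun i ih => Bool.rec false ih (p i)) n
/-- all quadruples with first code `e0`, the other codes at most `e0` -/
def loop (e0 : ℕ) : Bool :=
  allb (fun e1 => allb (fun e2 =>
    allb (inner e0 e1 e2 (DA e0 e2) (DB e1 e2) (DC e0 e1) (Nat.add (Nat.add (K e0) (K e1)) (K e2)))
      (Nat.succ e0)) (Nat.succ e0)) (Nat.succ e0)

set_option maxRecDepth 100000 in
theorem loops : allb loop 25 = true := by decide +kernel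

end Pool.Agent.Lib.MP_e6e31f_sep
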