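import Pool.Agent.Lib.MP_e6e31f_sep.Main

/-!
# Separating strategies that win with probability close to `7 / 20`
-/

set_option autoImplicit false

open Finset

namespace Pool.Agent.Lib.MP_e6e31f_sep

variable {h d : ℕ}

/-- hat named in the class -/
def rho : Fin 4 → Fin 3 := ![0, 1, 0, 2]

theorem rho_inj : ∀ a b : Fin 4, a ≠ 0 → b ≠ 0 → rho a = rho b → a = b := by decide

/-- `k` is the first triple not of one colour -/
def First (τ : Fin d → Fin 3 → Fin h) (t : Fin h → Bool) (k : Fin d) : Prop :=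
  (∀ j < k, cls τ j t = 0) ∧ cls τ k t ≠ 0

theorem first_unique (τ : Fin d → Fin 3 → Fin h) (t : Fin h → Bool) (k k' : Fin d)
    (hk : First τ t k) (hk' : First τ t k') : k = k' := by
  rcases lt_trichotomy k k' with h1 | h1 | h1
  · exact absurd (hk'.1 k h1) hk.2
  · exact h1
  · exact absurd (hk.1 k' h1) hk'.2

theorem first_or (τ : Fin d → Fin 3 → Fin h) (t : Fin h → Bool) :
    (∃ k, First τ t k) ∨ ∀ k, cls τ k t = 0 := by
  by_contra hc
  push Not at hc
  obtain ⟨hc1, ⟨k, hk⟩⟩ := hc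
  have key : ∀ n : ℕ, ∀ j : Fin d, j.val = n → cls τ j t = 0 := by
    intro n
    induction n using Nat.strong_induction_on with
    | _ n ih =>
      intro j hj
      by_contra hne
      exact hc1 j ⟨fun i hi => ih i.val (by rw [← hj]; exact hi) i rfl, hne⟩
  exact hk (key k.val k rfl)

/-- the strategy -/
noncomputable def st (τ : Fin d → Fin 3 → Fin h) (e : Fin h) (t : Fin h → Bool) : Fin h :=
  open Classical in
  if hk : ∃ k, First τ t k then τ hk.choose (rho (cls τ hk.choose t)) else e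

theorem st_first (τ : Fin d → Fin 3 → Fin h) (e : Fin h) (t : Fin h → Bool) (k : Fin d)
    (hk : First τ t k) : st τ e t = τ k (rho (cls τ k t)) := by
  have hex : ∃ k, First τ t k := ⟨k, hk⟩
  have e1 : hex.choose = k := first_unique τ t _ _ hex.choose_spec hk
  unfold st
  rw [dif_pos hex, e1]

theorem st_mono (τ : Fin d → Fin 3 → Fin h) (e : Fin h) (t : Fin h → Bool)
    (ht : ∀ k, cls τ k t = 0) : st τ e t = e := by
  have hex : ¬ ∃ k, First τ t k := by
    rintro ⟨k, hk⟩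
    exact hk.2 (ht k)
  unfold st
  rw [dif_neg hex]

theorem st_congr (τ : Fin d → Fin 3 → Fin h) (e : Fin h) (t t' : Fin h → Bool)
    (ht : ∀ k, cls τ k t = cls τ k t') : st τ e t = st τ e t' := by
  rcases first_or τ t with ⟨k, hk⟩ | h0
  · have hk' : First τ t' k := by
      refine ⟨fun j hj => ?_, ?_⟩
      · rw [← ht]; exact hk.1 j hj
      · rw [← ht]; exact hk.2
    rw [st_first τ e t k hk, st_first τ e t' k hk', ht]
  · rw [st_mono τ e t h0, st_mono τ e t' (fun k => by rw [← ht]; exact h0 k)]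

section

variable (τ : Fin d → Fin 3 → Fin h)
  (hτ : Function.Injective (fun x : Fin d × Fin 3 => τ x.1 x.2))
  (e : Fin h) (he : ∀ k x, τ k x ≠ e)

include hτ he

theorem st_sep : Separating τ (st τ e) := by
  intro t t' htt k hk hk'
  rcases first_or τ t with ⟨k1, h1⟩ | h1
  · rcases first_or τ t' with ⟨k2, h2⟩ | h2
    · rw [st_first τ e t k1 h1, st_first τ e t' k2 h2] at htt
      have e1 := @hτ (k1, _) (k2, _) htt
      have e2 : k1 = k2 := (Prod.mk.inj e1).1
      have e3 : rho (cls τ k1 t) = rho (cls τ k2 t') := (Prod.mk.inj e1).2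
      subst e2
      have e4 := rho_inj _ _ h1.2 h2.2 e3
      rcases lt_trichotomy k k1 with h3 | h3 | h3
      · rw [h1.1 k h3, h2.1 k h3]
      · rw [h3]; exact e4
      · exact absurd (hk k1 h3) h1.2
    · rw [st_first τ e t k1 h1, st_mono τ e t' h2] at htt
      exact absurd htt (he _ _)
  · rcases first_or τ t' with ⟨k2, h2⟩ | h2
    · rw [st_mono τ e t h1, st_first τ e t' k2 h2] at htt
      exact absurd htt.symm (he _ _)
    · rw [h1 k, h2 k]

end

/-- the signed sum over two families -/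
def S2 (A B : Finset (Fin h → Bool)) (f : (Fin h → Bool) → Fin h) : ℤ :=
  ∑ s ∈ A, ∑ t ∈ B, sg (s (f t)) * sg (t (f s))

theorem S2_comm (A B : Finset (Fin h → Bool)) (f : (Fin h → Bool) → Fin h) :
    S2 A B f = S2 B A f := by
  unfold S2
  rw [Finset.sum_comm]
  refine Finset.sum_congr rfl (fun t _ => Finset.sum_congr rfl (fun s _ => ?_))
  ring

/-- stacks in which the triple `k` is the first not of one colour -/
def Nk (τ : Fin d → Fin 3 → Fin h) (k : Fin d) : Finset (Fin h → Bool) :=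
  (Ck τ k.val).filter (fun t => ¬ cls3 (t (τ k 0)) (t (τ k 1)) (t (τ k 2)) = 0)

theorem mem_Nk (τ : Fin d → Fin 3 → Fin h) (k : Fin d) (t : Fin h → Bool) (ht : t ∈ Nk τ k) :
    First τ t k := by
  unfold Nk at ht
  rw [Finset.mem_filter, mem_Ck] at ht
  exact ⟨fun j hj => ht.1 j hj, ht.2⟩

theorem S2_split (τ : Fin d → Fin 3 → Fin h) (k : Fin d) (f : (Fin h → Bool) → Fin h) :
    S2 (Ck τ k.val) (Ck τ k.val) f = S2 (Ck τ (k.val + 1)) (Ck τ (k.val + 1)) f +
      S2 (Ck τ (k.val + 1)) (Nk τ k) f + S2 (Nk τ k) (Ck τ (k.val + 1)) f +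
      S2 (Nk τ k) (Nk τ k) f := by
  have hsp : ∀ G : (Fin h → Bool) → ℤ, ∑ t ∈ Ck τ k.val, G t =
      ∑ t ∈ Ck τ (k.val + 1), G t + ∑ t ∈ Nk τ k, G t := by
    intro G
    rw [Ck_succ τ k]
    unfold Nk
    exact (Finset.sum_filter_add_sum_filter_not _ _ _).symm
  unfold S2
  rw [hsp]
  simp only [hsp]
  rw [Finset.sum_add_distrib, Finset.sum_add_distrib]
  ring

section

variable (τ : Fin d → Fin 3 → Fin h)
  (hτ : Function.Injective (fun x : Fin d × Fin 3 => τ x.1 x.2))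
  (e : Fin h)

include hτ

theorem S2_cross (k : Fin d) : S2 (Ck τ (k.val + 1)) (Nk τ k) (st τ e) = 0 := by
  classical
  set fl : (Fin h → Bool) → (Fin h → Bool) :=
    fun t i => if (∃ x, τ k x = i) then !(t i) else t i with hfl
  have hinv : ∀ t, fl (fl t) = t := by
    intro t
    funext i
    simp only [hfl]
    by_cases hi : ∃ x, τ k x = i
    · simp [hi]
    · simp [hi]
  have hin : ∀ (t : Fin h → Bool) (x : Fin 3), fl t (τ k x) = !(t (τ k x)) := by
    intro t x
    have : ∃ y, τ k y = τ k x := ⟨x, rfl⟩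
    simp only [hfl, if_pos this]
  have hout : ∀ (t : Fin h → Bool) (j : Fin d) (x : Fin 3), j ≠ k → fl t (τ j x) = t (τ j x) := by
    intro t j x hj
    have : ¬ ∃ y, τ k y = τ j x := by
      rintro ⟨y, hy⟩
      exact tau_ne τ hτ (Ne.symm hj) _ _ hy
    simp only [hfl, if_neg this]
  have hcls : ∀ t, cls τ k t = 0 → ∀ j, cls τ j (fl t) = cls τ j t := by
    intro t ht j
    by_cases hj : j = k
    · rw [hj, ht, cls_zero, hin, hin, hin]
      have := (cls_zero τ k t).1 ht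
      rw [this.1, this.2]
      exact ⟨rfl, rfl⟩
    · unfold cls
      rw [hout t j _ hj, hout t j _ hj, hout t j _ hj]
  have hk0 : ∀ t ∈ Ck τ (k.val + 1), cls τ k t = 0 := by
    intro t ht
    exact (mem_Ck τ _ t).1 ht k (by omega)
  have hmem : ∀ t ∈ Ck τ (k.val + 1), fl t ∈ Ck τ (k.val + 1) := by
    intro t ht
    have h0 := hk0 t ht
    rw [mem_Ck] at ht ⊢
    intro j hj
    rw [hcls t h0 j]
    exact ht j hj
  have hsum : ∑ s ∈ Ck τ (k.val + 1), ∑ t ∈ Nk τ k, sg (fl s (st τ e t)) * sg (t (st τ e (fl s))) =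
      ∑ s ∈ Ck τ (k.val + 1), ∑ t ∈ Nk τ k, sg (s (st τ e t)) * sg (t (st τ e s)) :=
    Finset.sum_nbij' fl fl hmem hmem (fun t _ => hinv t) (fun t _ => hinv t) (fun t _ => rfl)
  have hpt : ∑ s ∈ Ck τ (k.val + 1), ∑ t ∈ Nk τ k,
      sg (fl s (st τ e t)) * sg (t (st τ e (fl s))) =
      ∑ s ∈ Ck τ (k.val + 1), ∑ t ∈ Nk τ k, -(sg (s (st τ e t)) * sg (t (st τ e s))) := by
    refine Finset.sum_congr rfl (fun s hs => Finset.sum_congr rfl (fun t ht => ?_))
    rw [st_congr τ e (fl s) s (hcls s (hk0 s hs)), st_first τ e t k (mem_Nk τ k t ht), hin, sg_not]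
    ring
  rw [hpt] at hsum
  simp only [Finset.sum_neg_distrib] at hsum
  unfold S2
  linarith

theorem S2_main (k : Fin d) : 8 * S2 (Nk τ k) (Nk τ k) (st τ e) =
    3 * ((Ck τ k.val).card : ℤ) * (Ck τ k.val).card := by
  have hp := tau_ne' τ hτ k (show (0 : Fin 3) ≠ 1 by decide)
  have hp2 := tau_ne' τ hτ k (show (0 : Fin 3) ≠ 2 by decide)
  have hq := tau_ne' τ hτ k (show (1 : Fin 3) ≠ 2 by decide)
  -- the summand in terms of the hats of the triple
  set T : (Fin h → Bool) → (Fin h → Bool) → ℤ := fun s t =>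
    if cls3 (s (τ k 0)) (s (τ k 1)) (s (τ k 2)) = 0 then 0 else
    if cls3 (t (τ k 0)) (t (τ k 1)) (t (τ k 2)) = 0 then 0 else
      sg (![s (τ k 0), s (τ k 1), s (τ k 2)] (rho (cls3 (t (τ k 0)) (t (τ k 1)) (t (τ k 2))))) *
      sg (![t (τ k 0), t (τ k 1), t (τ k 2)] (rho (cls3 (s (τ k 0)) (s (τ k 1)) (s (τ k 2)))))
    with hT
  have hv : ∀ (s : Fin h → Bool) (x : Fin 3), s (τ k x) = ![s (τ k 0), s (τ k 1), s (τ k 2)] x := by
    intro s x
    fin_cases x <;> rfl
  have e1 : S2 (Nk τ k) (Nk τ k) (st τ e) = ∑ s ∈ Ck τ k.val, ∑ t ∈ Ck τ k.val, T s t := by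
    have a1 : S2 (Nk τ k) (Nk τ k) (st τ e) = ∑ s ∈ Nk τ k, ∑ t ∈ Nk τ k, T s t := by
      unfold S2
      refine Finset.sum_congr rfl (fun s hs => Finset.sum_congr rfl (fun t ht => ?_))
      have fs := mem_Nk τ k s hs
      have ft := mem_Nk τ k t ht
      have n1 : ¬ cls3 (s (τ k 0)) (s (τ k 1)) (s (τ k 2)) = 0 := fs.2
      have n2 : ¬ cls3 (t (τ k 0)) (t (τ k 1)) (t (τ k 2)) = 0 := ft.2
      rw [hT]
      simp only
      rw [if_neg n1, if_neg n2, st_first τ e t k ft, st_first τ e s k fs, hv s, hv t]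
      rfl
    rw [a1]
    unfold Nk
    rw [Finset.sum_filter]
    refine Finset.sum_congr rfl (fun s _ => ?_)
    by_cases n1 : cls3 (s (τ k 0)) (s (τ k 1)) (s (τ k 2)) = 0
    · rw [if_neg (not_not.2 n1)]
      symm
      refine Finset.sum_eq_zero (fun t _ => ?_)
      rw [hT]
      simp only
      rw [if_pos n1]
    · rw [if_pos n1, Finset.sum_filter]
      refine Finset.sum_congr rfl (fun t _ => ?_)
      by_cases n2 : cls3 (t (τ k 0)) (t (τ k 1)) (t (τ k 2)) = 0
      · rw [if_neg (not_not.2 n2), hT]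
        simp only
        rw [if_neg n1, if_pos n2]
      · rw [if_pos n2]
  have hset := fun x y z (t : Fin h → Bool) (ht : t ∈ Ck τ k.val) => setb_mem τ hτ k x y z t ht
  have e2 : 8 * (8 * ∑ s ∈ Ck τ k.val, ∑ t ∈ Ck τ k.val, T s t) =
      ∑ s ∈ Ck τ k.val, ∑ t ∈ Ck τ k.val, (24 : ℤ) := by
    rw [← avg (τ k 0) (τ k 1) (τ k 2) hp hp2 hq _ hset
      (fun s => ∑ t ∈ Ck τ k.val, T s t), Finset.mul_sum]
    refine Finset.sum_congr rfl (fun s _ => ?_)
    simp only [Finset.mul_sum]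
    have inner : ∀ x y z : Bool, 8 * ∑ t ∈ Ck τ k.val,
        T (setb (τ k 0) (τ k 1) (τ k 2) x y z s) t =
        ∑ t ∈ Ck τ k.val, ∑ x' : Bool, ∑ y' : Bool, ∑ z' : Bool,
          T (setb (τ k 0) (τ k 1) (τ k 2) x y z s)
            (setb (τ k 0) (τ k 1) (τ k 2) x' y' z' t) := by
      intro x y z
      exact (avg (τ k 0) (τ k 1) (τ k 2) hp hp2 hq _ hset
        (fun t => T (setb (τ k 0) (τ k 1) (τ k 2) x y z s) t)).symm
    have val : ∀ (x y z x' y' z' : Bool) (t : Fin h → Bool),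
        T (setb (τ k 0) (τ k 1) (τ k 2) x y z s) (setb (τ k 0) (τ k 1) (τ k 2) x' y' z' t) =
        if cls3 x y z = 0 then 0 else if cls3 x' y' z' = 0 then 0 else
          sg (![x, y, z] (rho (cls3 x' y' z'))) * sg (![x', y', z'] (rho (cls3 x y z))) := by
      intro x y z x' y' z' t
      rw [hT]
      simp only
      rw [setb_p, setb_q _ hp, setb_r hp2 hq, setb_p, setb_q _ hp, setb_r hp2 hq]
    have tot : ∑ x : Bool, ∑ y : Bool, ∑ z : Bool, ∑ x' : Bool, ∑ y' : Bool, ∑ z' : Bool,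
        (if cls3 x y z = 0 then 0 else if cls3 x' y' z' = 0 then 0 else
          sg (![x, y, z] (rho (cls3 x' y' z'))) * sg (![x', y', z'] (rho (cls3 x y z)))) =
        (24 : ℤ) := by decide
    simp only [← Finset.mul_sum]
    have step1 : 8 * ∑ x : Bool, ∑ y : Bool, ∑ z : Bool,
        ∑ t ∈ Ck τ k.val, T (setb (τ k 0) (τ k 1) (τ k 2) x y z s) t =
        ∑ x : Bool, ∑ y : Bool, ∑ z : Bool, ∑ t ∈ Ck τ k.val,
          ∑ x' : Bool, ∑ y' : Bool, ∑ z' : Bool,
          (if cls3 x y z = 0 then 0 else if cls3 x' y' z' = 0 then 0 else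
          sg (![x, y, z] (rho (cls3 x' y' z'))) * sg (![x', y', z'] (rho (cls3 x y z)))) := by
      simp only [Finset.mul_sum]
      refine Finset.sum_congr rfl (fun x _ => Finset.sum_congr rfl (fun y _ =>
        Finset.sum_congr rfl (fun z _ => ?_)))
      rw [← Finset.mul_sum, inner x y z]
      simp only [val]
    rw [step1]
    simp only [Finset.sum_const, nsmul_eq_mul]
    simp only [← Finset.mul_sum]
    rw [tot]
  rw [e1]
  simp only [Finset.sum_const, nsmul_eq_mul] at e2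
  linarith

omit hτ in
theorem S2_last : S2 (Ck τ d) (Ck τ d) (st τ e) = 0 := by
  have h0 : ∀ t ∈ Ck τ d, st τ e t = e := by
    intro t ht
    exact st_mono τ e t (fun k => (mem_Ck τ d t).1 ht k k.isLt)
  have hs : ∑ t ∈ Ck τ d, sg (t e) = 0 := by
    have h1 : ∑ t ∈ Ck τ d, sg (neg t e) = ∑ t ∈ Ck τ d, sg (t e) :=
      Finset.sum_nbij' neg neg (neg_mem τ d) (neg_mem τ d) (fun t _ => neg_neg' t)
        (fun t _ => neg_neg' t) (fun _ _ => rfl)
    have h2 : ∀ t : Fin h → Bool, sg (neg t e) = - sg (t e) := fun t => sg_not _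
    simp only [h2, Finset.sum_neg_distrib] at h1
    linarith
  have e1 : S2 (Ck τ d) (Ck τ d) (st τ e) = ∑ s ∈ Ck τ d, ∑ t ∈ Ck τ d, sg (s e) * sg (t e) := by
    unfold S2
    refine Finset.sum_congr rfl (fun s hs' => Finset.sum_congr rfl (fun t ht => ?_))
    rw [h0 s hs', h0 t ht]
  rw [e1]
  simp only [← Finset.mul_sum, hs, mul_zero, Finset.sum_const_zero]

theorem S2_value (n : ℕ) : ∀ k : ℕ, k + n = d →
    (S2 (Ck τ k) (Ck τ k) (st τ e) : ℝ) =
      2 / 5 * (1 - 1 / 16 ^ n) * ((Ck τ k).card * (Ck τ k).card) := by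
  induction n with
  | zero =>
    intro k hk
    have : k = d := by omega
    subst this
    rw [S2_last τ e]
    norm_num
  | succ n ih =>
    intro k hk
    have hkd : k < d := by omega
    have h1 := ih (k + 1) (by omega)
    have h2 := card_succ τ hτ ⟨k, hkd⟩
    have h3 := S2_split τ ⟨k, hkd⟩ (st τ e)
    have h4 := S2_cross τ hτ e ⟨k, hkd⟩
    have h5 := S2_main τ hτ e ⟨k, hkd⟩
    rw [S2_comm (Nk τ ⟨k, hkd⟩) (Ck τ _), h4] at h3
    simp only at h2 h3 h5
    have h6 : (8 * S2 (Ck τ k) (Ck τ k) (st τ e) : ℝ) =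
        8 * S2 (Ck τ (k + 1)) (Ck τ (k + 1)) (st τ e) + 3 * (Ck τ k).card * (Ck τ k).card := by
      have : 8 * S2 (Ck τ k) (Ck τ k) (st τ e) =
        8 * S2 (Ck τ (k + 1)) (Ck τ (k + 1)) (st τ e) + 3 * (Ck τ k).card * (Ck τ k).card := by
        rw [h3]; linarith
      exact_mod_cast this
    have h7 : (4 * (Ck τ (k + 1)).card : ℝ) = (Ck τ k).card := by exact_mod_cast h2
    have h8 : ((Ck τ (k + 1)).card : ℝ) = (Ck τ k).card / 4 := by linarith
    rw [h1, h8] at h6
    have h9 : ((16 : ℝ) ^ n) ≠ 0 := by positivity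
    have h10 : (1 : ℝ) / 16 ^ (n + 1) = (1 / 16 ^ n) / 16 := by
      rw [pow_succ]; field_simp
    rw [h10]
    linear_combination (1 / 8) * h6

theorem st_value : (wins (st τ e) (st τ e) : ℝ) / 4 ^ h = 7 / 20 - 1 / (10 * 16 ^ d) := by
  have h1 := S2_value τ hτ e d 0 (by omega)
  rw [Ck_zero, card_stacks] at h1
  have h2 : (4 * (wins (st τ e) (st τ e) : ℝ)) = 4 ^ h + S Finset.univ (st τ e) (st τ e) := by
    exact_mod_cast four_wins (st τ e) (st τ e)
  have h0 : S2 Finset.univ Finset.univ (st τ e) = S Finset.univ (st τ e) (st τ e) := rfl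
  rw [h0] at h1
  have h3 : (((2 ^ h : ℕ) : ℝ) * ((2 ^ h : ℕ) : ℝ)) = 4 ^ h := by
    push_cast
    rw [← mul_pow]; norm_num
  rw [h3] at h1
  have h4 : ((4 : ℝ) ^ h) ≠ 0 := by positivity
  have h5 : ((16 : ℝ) ^ d) ≠ 0 := by positivity
  rw [div_eq_iff h4]
  have h6 : (1 : ℝ) / (10 * 16 ^ d) = (1 / 16 ^ d) / 10 := by field_simp
  rw [h6]
  linear_combination (1 / 4) * h2 + (1 / 4) * h1

end

/-- restriction of separation to fewer triples -/
theorem sep_restrict {d' : ℕ} (hd : d ≤ d') (τ : Fin d' → Fin 3 → Fin h)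
    (f : (Fin h → Bool) → Fin h) (hf : Separating τ f) :
    Separating (fun k : Fin d => τ (Fin.castLE hd k)) f := by
  intro t t' htt k hk hk'
  refine hf t t' htt (Fin.castLE hd k) ?_ ?_
  · intro j hj
    have hj' : j.val < k.val := hj
    exact hk ⟨j.val, by omega⟩ hj'
  · intro j hj
    have hj' : j.val < k.val := hj
    exact hk' ⟨j.val, by omega⟩ hj'

/-- SHARPNESS -/
theorem sharp (d : ℕ) (ε : ℝ) (hε : 0 < ε) :
    ∃ (h : ℕ) (τ : Fin d → Fin 3 → Fin h) (f g : (Fin h → Bool) → Fin h),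
      Function.Injective (fun x : Fin d × Fin 3 => τ x.1 x.2) ∧ Separating τ f ∧ Separating τ g ∧
      7 / 20 - ε < (wins f g : ℝ) / 4 ^ h := by
  obtain ⟨n, hn⟩ := exists_pow_lt_of_lt_one hε (show (1 / 16 : ℝ) < 1 by norm_num)
  set d' := max d n with hd'
  have hd : d ≤ d' := le_max_left _ _
  set τ' : Fin d' → Fin 3 → Fin (3 * d' + 1) := fun k x =>
    ⟨3 * k.val + x.val, by have := k.isLt; have := x.isLt; omega⟩ with hτ'
  have hinj : Function.Injective (fun x : Fin d' × Fin 3 => τ' x.1 x.2) := by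
    rintro ⟨k, x⟩ ⟨k', x'⟩ hh
    have h1 : 3 * k.val + x.val = 3 * k'.val + x'.val := by
      have := congrArg Fin.val hh
      simpa [hτ'] using this
    have h2 := x.isLt
    have h3 := x'.isLt
    have h4 : k = k' := Fin.ext (by omega)
    have h5 : x = x' := Fin.ext (by omega)
    rw [h4, h5]
  have he : ∀ k x, τ' k x ≠ (⟨3 * d', by omega⟩ : Fin (3 * d' + 1)) := by
    intro k x hh
    have h1 := congrArg Fin.val hh
    simp only [hτ'] at h1
    have := k.isLt
    have := x.isLt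
    omega
  refine ⟨3 * d' + 1, fun k => τ' (Fin.castLE hd k), st τ' ⟨3 * d', by omega⟩,
    st τ' ⟨3 * d', by omega⟩, ?_, ?_, ?_, ?_⟩
  · rintro ⟨k, x⟩ ⟨k', x'⟩ hh
    have h1 := @hinj (Fin.castLE hd k, x) (Fin.castLE hd k', x') hh
    have h2 : Fin.castLE hd k = Fin.castLE hd k' := (Prod.mk.inj h1).1
    have h3 : x = x' := (Prod.mk.inj h1).2
    have h4 : k = k' := Fin.castLE_injective hd h2
    rw [h3, h4]
  · exact sep_restrict hd τ' _ (st_sep τ' hinj _ he)
  · exact sep_restrict hd τ' _ (st_sep τ' hinj _ he)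
  · rw [st_value τ' hinj]
    have h1 : (1 : ℝ) / 16 ^ d' ≤ (1 / 16) ^ n := by
      rw [one_div_pow]
      exact one_div_le_one_div_of_le (by positivity)
        (pow_le_pow_right₀ (by norm_num) (le_max_right _ _))
    have h2 : (1 : ℝ) / (10 * 16 ^ d') = (1 / 16 ^ d') / 10 := by field_simp
    have h3 : (0 : ℝ) < 1 / 16 ^ d' := by positivity
    rw [h2]
    linarith

end Pool.Agent.Lib.MP_e6e31f_sep
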