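import Pool.Agent.Lib.MP_e6e31f_sep.Proj
import Pool.Agent.Lib.MP_e6e31f_sep.Sharp
import Pool.Agent.Lib.MP_e6e31f_co.Game

/-!
# The bound with the better start
-/

set_option autoImplicit false

open Finset

namespace Pool.Agent.Lib.MP_e6e31f_sep

variable {h d : ℕ}

theorem base2 (τ : Fin d → Fin 3 → Fin h)
    (hτ : Function.Injective (fun x : Fin d × Fin 3 => τ x.1 x.2))
    (f g : (Fin h → Bool) → Fin h) :
    (S (Ck τ d) f g : ℝ) ≤ 7 / 16 * 2 ^ h * (Ck τ d).card := by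
  have h1 : (wins (fun t => f (proj τ d t)) (fun s => rep τ d (g s)) : ℝ) / 4 ^ h ≤ 23 / 64 :=
    Pool.Agent.Lib.MP_e6e31f_co.game (fun t => f (proj τ d t)) (fun s => rep τ d (g s))
  have h2 : (4 * (wins (fun t => f (proj τ d t)) (fun s => rep τ d (g s)) : ℝ)) =
      4 ^ h + S Finset.univ (fun t => f (proj τ d t)) (fun s => rep τ d (g s)) := by
    exact_mod_cast four_wins (fun t => f (proj τ d t)) (fun s => rep τ d (g s))
  have h3 : (S Finset.univ (fun t => f (proj τ d t)) (fun s => rep τ d (g s)) : ℝ) =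
      4 ^ d * S (Ck τ d) f g := by exact_mod_cast S_proj τ hτ f g
  have h4 : (2 : ℝ) ^ h = 4 ^ d * (Ck τ d).card := by exact_mod_cast card_Ck τ hτ d le_rfl
  have h5 : (0 : ℝ) < 4 ^ h := by positivity
  rw [div_le_iff₀ h5] at h1
  have h6 : (4 : ℝ) ^ h = 2 ^ h * 2 ^ h := by rw [← mul_pow]; norm_num
  have h7 : (0 : ℝ) < 4 ^ d := by positivity
  have h8 : (4 : ℝ) ^ d * S (Ck τ d) f g ≤ 4 ^ d * (7 / 16 * 2 ^ h * (Ck τ d).card) := by
    have e1 : (4 : ℝ) ^ d * (7 / 16 * 2 ^ h * (Ck τ d).card) =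
        7 / 16 * (2 ^ h * (4 ^ d * (Ck τ d).card)) := by ring
    rw [e1, ← h4, ← h6]
    linarith
  exact le_of_mul_le_mul_left h8 h7

/-- the bound for the signed sum -/
theorem bound2 (τ : Fin d → Fin 3 → Fin h)
    (hτ : Function.Injective (fun x : Fin d × Fin 3 => τ x.1 x.2))
    (f : (Fin h → Bool) → Fin h) (hf : Separating τ f) (n : ℕ) :
    ∀ k : ℕ, k + n = d → ∀ g : (Fin h → Bool) → Fin h,
      (S (Ck τ k) f g : ℝ) ≤ (2 / 5 + 3 / (80 * 16 ^ n)) * 2 ^ h * (Ck τ k).card := by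
  induction n with
  | zero =>
    intro k hk g
    have hkd : k = d := by omega
    subst hkd
    have h1 := base2 τ hτ f g
    have h3 : ((2 : ℝ) / 5 + 3 / (80 * 16 ^ 0)) = 7 / 16 := by norm_num
    rw [h3]
    exact h1
  | succ n ih =>
    intro k hk g
    have hkd : k < d := by omega
    obtain ⟨g', hg'⟩ := step τ hτ f hf ⟨k, hkd⟩ g
    have h1 := ih (k + 1) (by omega) g'
    have h2 := card_succ τ hτ ⟨k, hkd⟩
    simp only at hg' h2
    have h3 : (8 * S (Ck τ k) f g : ℝ) ≤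
      3 * 2 ^ h * (Ck τ k).card + 2 * S (Ck τ (k + 1)) f g' := by exact_mod_cast hg'
    have h4 : (4 * (Ck τ (k + 1)).card : ℝ) = (Ck τ k).card := by exact_mod_cast h2
    have h5 : ((2 : ℝ) / 5 + 3 / (80 * 16 ^ (n + 1))) * 2 ^ h * (Ck τ k).card =
        (3 / 8) * 2 ^ h * (Ck τ k).card +
        (1 / 16) * ((2 / 5 + 3 / (80 * 16 ^ n)) * 2 ^ h * (Ck τ k).card) := by
      have : ((16 : ℝ) ^ n) ≠ 0 := by positivity
      field_simp
      ring
    rw [h5]
    have h6 : (Ck τ (k + 1)).card = ((Ck τ k).card : ℝ) / 4 := by linarith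
    rw [h6] at h1
    linarith

theorem main_f2 (τ : Fin d → Fin 3 → Fin h)
    (hτ : Function.Injective (fun x : Fin d × Fin 3 => τ x.1 x.2))
    (f g : (Fin h → Bool) → Fin h) (hf : Separating τ f) :
    (wins f g : ℝ) / 4 ^ h ≤ 7 / 20 + 3 / (320 * 16 ^ d) := by
  have h1 := bound2 τ hτ f hf d 0 (by omega) g
  rw [Ck_zero, card_stacks] at h1
  have h2 : (4 * (wins f g : ℝ)) = 4 ^ h + S Finset.univ f g := by exact_mod_cast four_wins f g
  have h3 : ((2 : ℝ) ^ h * ((2 ^ h : ℕ) : ℝ)) = 4 ^ h := by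
    push_cast
    rw [← mul_pow]; norm_num
  rw [mul_assoc, h3] at h1
  have h4 : (0 : ℝ) < 4 ^ h := by positivity
  rw [div_le_iff₀ h4]
  have h5 : (7 / 20 + 3 / (320 * 16 ^ d) : ℝ) = (1 + (2 / 5 + 3 / (80 * 16 ^ d))) / 4 := by
    have : ((16 : ℝ) ^ d) ≠ 0 := by positivity
    field_simp
    ring
  rw [h5]
  linarith

/-- THEOREM -/
theorem main2 (τ : Fin d → Fin 3 → Fin h)
    (hτ : Function.Injective (fun x : Fin d × Fin 3 => τ x.1 x.2))
    (f g : (Fin h → Bool) → Fin h) (hs : Separating τ f ∨ Separating τ g) :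
    (wins f g : ℝ) / 4 ^ h ≤ 7 / 20 + 3 / (320 * 16 ^ d) := by
  rcases hs with hf | hg
  · exact main_f2 τ hτ f g hf
  · rw [wins_comm]
    exact main_f2 τ hτ g f hg

end Pool.Agent.Lib.MP_e6e31f_sep
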