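import Pool.Agent.Lib.MP_e6e31f_sep.Tables

/-!
# The lemma on four pairs of hats and one triple of hats
-/

set_option autoImplicit false

open Finset

namespace Pool.Agent.Lib.MP_e6e31f_sep

variable {h : ℕ}

/-- colour as an integer -/
def bz (b : Bool) : ℤ := b.toNat

/-- difference of two colours -/
def W (c c' : Fin h) (t : Fin h → Bool) : ℤ := bz (t c) - bz (t c')

/-- the stack with all colours exchanged -/
def neg (t : Fin h → Bool) : Fin h → Bool := fun i => !(t i)

/-- the stack with the colours of the hats `p`, `q`, `r` reset -/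
def setb (p q r : Fin h) (x y z : Bool) (t : Fin h → Bool) : Fin h → Bool :=
  fun i => if i = p then x else if i = q then y else if i = r then z else t i

/-- class of three colours: `0` if they are equal, `1` if the first is black and the second white,
`2` if the second is black and the third white, `3` if the third is black and the first white -/
def cls3 (a b c : Bool) : Fin 4 :=
  if a = true ∧ b = false then 1 else if b = true ∧ c = false then 2
  else if c = true ∧ a = false then 3 else 0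

/-- Hadamard matrix -/
def H : Fin 4 → Fin 4 → ℤ := ![![1, 1, 1, 1], ![1, 1, -1, -1], ![1, -1, 1, -1], ![1, -1, -1, 1]]

/-- the twisted sum of four differences -/
def V (p q r : Fin h) (c c' : Fin 4 → Fin h) (t : Fin h → Bool) : ℤ :=
  ∑ j, H (cls3 (t p) (t q) (t r)) j * W (c j) (c' j) t

/-- symbol of a hat -/
def sym (p q r : Fin h) (t : Fin h → Bool) (i : Fin h) : ℕ :=
  if i = p then 2 else if i = q then 3 else if i = r then 4 else (t i).toNat

/-- number of a setting -/
def bn (x y z : Bool) : ℕ := x.toNat + 2 * y.toNat + 4 * z.toNat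

/-- code of a pair of hats -/
def code (p q r : Fin h) (t : Fin h → Bool) (c c' : Fin h) : ℕ :=
  5 * sym p q r t c + sym p q r t c'

theorem sym_lt (p q r : Fin h) (t : Fin h → Bool) (i : Fin h) : sym p q r t i < 5 := by
  unfold sym
  have := Bool.toNat_lt (t i)
  split_ifs <;> omega

theorem code_lt (p q r : Fin h) (t : Fin h → Bool) (c c' : Fin h) : code p q r t c c' < 25 := by
  have h1 := sym_lt p q r t c
  have h2 := sym_lt p q r t c'
  unfold code; omega

theorem val_sym (p q r : Fin h) (t : Fin h → Bool) (i : Fin h) (x y z : Bool) :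
    val (sym p q r t i) (bn x y z) = (setb p q r x y z t i).toNat := by
  unfold sym setb
  split_ifs
  · cases x <;> cases y <;> cases z <;> decide
  · cases x <;> cases y <;> cases z <;> decide
  · cases x <;> cases y <;> cases z <;> decide
  · have := Bool.toNat_lt (t i)
    unfold val
    rw [if_pos this]

theorem ev_code (p q r : Fin h) (t : Fin h → Bool) (c c' : Fin h) (x y z : Bool) :
    (ev (code p q r t c c') (bn x y z) : ℤ) = W c c' (setb p q r x y z t) + 1 := by
  have h2 := sym_lt p q r t c'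
  have e1 : code p q r t c c' / 5 = sym p q r t c := by unfold code; omega
  have e2 : code p q r t c c' % 5 = sym p q r t c' := by unfold code; omega
  unfold ev
  rw [e1, e2, val_sym, val_sym]
  have h3 := Bool.toNat_lt (setb p q r x y z t c)
  have h4 := Bool.toNat_lt (setb p q r x y z t c')
  unfold W bz
  omega

theorem ad_int (x y : ℕ) : (ad x y : ℤ) = |(x : ℤ) - y| := by
  unfold ad
  rcases abs_cases ((x : ℤ) - y) with hh | hh <;> omega

theorem mpn_int (p q r : Fin h) (t : Fin h → Bool) (a a' b b' c c' d d' : Fin h) (x y z : Bool) :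
    (mpn (code p q r t a a') (code p q r t b b') (code p q r t c c') (code p q r t d d')
      (bn x y z) : ℤ) =
    max |W a a' (setb p q r x y z t) - W b b' (setb p q r x y z t)|
      |W c c' (setb p q r x y z t) - W d d' (setb p q r x y z t)| := by
  unfold mpn
  rw [Nat.cast_max, ad_int, ad_int, ev_code, ev_code, ev_code, ev_code]
  congr 2 <;> ring

/-- the function after the use of the symmetry `t ↦ neg t` -/
def L (p q r : Fin h) (m : ℤ) (c c' : Fin 4 → Fin h) (t : Fin h → Bool) : ℤ :=
  if t p = t q ∧ t q = t r then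
    (m - 1) * |W (c 0) (c' 0) t + W (c 1) (c' 1) t + W (c 2) (c' 2) t + W (c 3) (c' 3) t|
  else if t q = t r then
    m * max |W (c 0) (c' 0) t - W (c 2) (c' 2) t| |W (c 1) (c' 1) t - W (c 3) (c' 3) t|
  else if t p = t r then
    m * max |W (c 0) (c' 0) t - W (c 3) (c' 3) t| |W (c 1) (c' 1) t - W (c 2) (c' 2) t|
  else
    m * max |W (c 0) (c' 0) t - W (c 1) (c' 1) t| |W (c 2) (c' 2) t - W (c 3) (c' 3) t|

/-- the function before the use of the symmetry -/
def K1 (p q r : Fin h) (m : ℤ) (c c' : Fin 4 → Fin h) (t : Fin h → Bool) : ℤ :=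
  (if cls3 (t p) (t q) (t r) = 0 then m - 1 else m) * |V p q r c c' t|

theorem abs_pair (x y : ℤ) : |x + y| + |x - y| = 2 * max |x| |y| := by
  rcases max_cases |x| |y| with ⟨h1, h2⟩ | ⟨h1, h2⟩ <;> rw [h1] <;>
  rcases abs_cases x with ⟨h3, h4⟩ | ⟨h3, h4⟩ <;> rcases abs_cases y with ⟨h5, h6⟩ | ⟨h5, h6⟩ <;>
  rcases abs_cases (x + y) with ⟨h7, h8⟩ | ⟨h7, h8⟩ <;>
  rcases abs_cases (x - y) with ⟨h9, h10⟩ | ⟨h9, h10⟩ <;> omega

theorem W_neg (c c' : Fin h) (t : Fin h → Bool) : W c c' (neg t) = - W c c' t := by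
  unfold W neg bz
  cases t c <;> cases t c' <;> simp

theorem neg_neg' (t : Fin h → Bool) : neg (neg t) = t := by
  funext i; simp [neg]

theorem V_0 (p q r : Fin h) (c c' : Fin 4 → Fin h) (t : Fin h → Bool)
    (hc : cls3 (t p) (t q) (t r) = 0) : V p q r c c' t =
    W (c 0) (c' 0) t + W (c 1) (c' 1) t + W (c 2) (c' 2) t + W (c 3) (c' 3) t := by
  unfold V; rw [hc]; simp [Fin.sum_univ_four, H]
theorem V_1 (p q r : Fin h) (c c' : Fin 4 → Fin h) (t : Fin h → Bool)
    (hc : cls3 (t p) (t q) (t r) = 1) : V p q r c c' t =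
    W (c 0) (c' 0) t + W (c 1) (c' 1) t - W (c 2) (c' 2) t - W (c 3) (c' 3) t := by
  unfold V; rw [hc]; simp [Fin.sum_univ_four, H]; ring
theorem V_2 (p q r : Fin h) (c c' : Fin 4 → Fin h) (t : Fin h → Bool)
    (hc : cls3 (t p) (t q) (t r) = 2) : V p q r c c' t =
    W (c 0) (c' 0) t - W (c 1) (c' 1) t + W (c 2) (c' 2) t - W (c 3) (c' 3) t := by
  unfold V; rw [hc]; simp [Fin.sum_univ_four, H]; ring
theorem V_3 (p q r : Fin h) (c c' : Fin 4 → Fin h) (t : Fin h → Bool)
    (hc : cls3 (t p) (t q) (t r) = 3) : V p q r c c' t =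
    W (c 0) (c' 0) t - W (c 1) (c' 1) t - W (c 2) (c' 2) t + W (c 3) (c' 3) t := by
  unfold V; rw [hc]; simp [Fin.sum_univ_four, H]; ring

theorem pair_A (m a b c d : ℤ) : m * |a + b - c - d| + m * |(-a) - (-b) - (-c) + (-d)| =
    m * max |a - c| |b - d| + m * max |(-a) - (-c)| |(-b) - (-d)| := by
  have h1 := abs_pair (a - c) (b - d)
  have e1 : a + b - c - d = (a - c) + (b - d) := by ring
  have e2 : (-a) - (-b) - (-c) + (-d) = -((a - c) - (b - d)) := by ring
  have e3 : (-a) - (-c) = -(a - c) := by ring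
  have e4 : (-b) - (-d) = -(b - d) := by ring
  rw [e1, e2, e3, e4, abs_neg, abs_neg, abs_neg]
  linear_combination m * h1

theorem pair_B (m a b c d : ℤ) : m * |a - b + c - d| + m * |(-a) + (-b) - (-c) - (-d)| =
    m * max |a - d| |b - c| + m * max |(-a) - (-d)| |(-b) - (-c)| := by
  have h1 := abs_pair (a - d) (b - c)
  have e1 : a - b + c - d = (a - d) - (b - c) := by ring
  have e2 : (-a) + (-b) - (-c) - (-d) = -((a - d) + (b - c)) := by ring
  have e3 : (-a) - (-d) = -(a - d) := by ring
  have e4 : (-b) - (-c) = -(b - c) := by ring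
  rw [e1, e2, e3, e4, abs_neg, abs_neg, abs_neg]
  linear_combination m * h1

theorem pair_C (m a b c d : ℤ) : m * |a - b - c + d| + m * |(-a) - (-b) + (-c) - (-d)| =
    m * max |a - b| |c - d| + m * max |(-a) - (-b)| |(-c) - (-d)| := by
  have h1 := abs_pair (a - b) (c - d)
  have e1 : a - b - c + d = (a - b) - (c - d) := by ring
  have e2 : (-a) - (-b) + (-c) - (-d) = -((a - b) + (c - d)) := by ring
  have e3 : (-a) - (-b) = -(a - b) := by ring
  have e4 : (-c) - (-d) = -(c - d) := by ring
  rw [e1, e2, e3, e4, abs_neg, abs_neg, abs_neg]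
  linear_combination m * h1

theorem K1_neg (p q r : Fin h) (m : ℤ) (c c' : Fin 4 → Fin h) (t : Fin h → Bool) :
    K1 p q r m c c' t + K1 p q r m c c' (neg t) = L p q r m c c' t + L p q r m c c' (neg t) := by
  unfold K1 L
  have n0 : ∀ i, neg t i = !(t i) := fun i => rfl
  have w : ∀ j, W (c j) (c' j) (neg t) = - W (c j) (c' j) t := fun j => W_neg _ _ _
  cases hp : t p <;> cases hq : t q <;> cases hr : t r
  · -- 000
    have g1 : cls3 (t p) (t q) (t r) = 0 := by rw [hp, hq, hr]; decide
    have g2 : cls3 (neg t p) (neg t q) (neg t r) = 0 := by rw [n0, n0, n0, hp, hq, hr]; decide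
    rw [V_0 p q r c c' t g1, V_0 p q r c c' (neg t) g2]
    simp only [n0, hp, hq, hr]
    simp [cls3]
  · -- 001 : r black : class 3, neg class 2
    have g1 : cls3 (t p) (t q) (t r) = 3 := by rw [hp, hq, hr]; decide
    have g2 : cls3 (neg t p) (neg t q) (neg t r) = 2 := by rw [n0, n0, n0, hp, hq, hr]; decide
    rw [V_3 p q r c c' t g1, V_2 p q r c c' (neg t) g2, w, w, w, w]
    have := pair_C m (W (c 0) (c' 0) t) (W (c 1) (c' 1) t) (W (c 2) (c' 2) t) (W (c 3) (c' 3) t)
    simp only [n0, hp, hq, hr]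
    simpa [cls3] using this
  · -- 010 : q black : class 2, neg class 1
    have g1 : cls3 (t p) (t q) (t r) = 2 := by rw [hp, hq, hr]; decide
    have g2 : cls3 (neg t p) (neg t q) (neg t r) = 1 := by rw [n0, n0, n0, hp, hq, hr]; decide
    rw [V_2 p q r c c' t g1, V_1 p q r c c' (neg t) g2, w, w, w, w]
    have := pair_B m (W (c 0) (c' 0) t) (W (c 1) (c' 1) t) (W (c 2) (c' 2) t) (W (c 3) (c' 3) t)
    simp only [n0, hp, hq, hr]
    simpa [cls3] using this
  · -- 011 : neg of 100: class 3, neg class 1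
    have g1 : cls3 (t p) (t q) (t r) = 3 := by rw [hp, hq, hr]; decide
    have g2 : cls3 (neg t p) (neg t q) (neg t r) = 1 := by rw [n0, n0, n0, hp, hq, hr]; decide
    rw [V_3 p q r c c' t g1, V_1 p q r c c' (neg t) g2, w, w, w, w]
    have := pair_A m (-W (c 0) (c' 0) t) (-W (c 1) (c' 1) t) (-W (c 2) (c' 2) t)
      (-W (c 3) (c' 3) t)
    simp only [neg_neg, sub_neg_eq_add] at this
    simp only [n0, hp, hq, hr]
    simp [cls3]
    linarith
  · -- 100 : class 1, neg class 3
    have g1 : cls3 (t p) (t q) (t r) = 1 := by rw [hp, hq, hr]; decide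
    have g2 : cls3 (neg t p) (neg t q) (neg t r) = 3 := by rw [n0, n0, n0, hp, hq, hr]; decide
    rw [V_1 p q r c c' t g1, V_3 p q r c c' (neg t) g2, w, w, w, w]
    have := pair_A m (W (c 0) (c' 0) t) (W (c 1) (c' 1) t) (W (c 2) (c' 2) t) (W (c 3) (c' 3) t)
    simp only [n0, hp, hq, hr]
    simpa [cls3] using this
  · -- 101 : neg of 010 : class 1, neg class 2
    have g1 : cls3 (t p) (t q) (t r) = 1 := by rw [hp, hq, hr]; decide
    have g2 : cls3 (neg t p) (neg t q) (neg t r) = 2 := by rw [n0, n0, n0, hp, hq, hr]; decide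
    rw [V_1 p q r c c' t g1, V_2 p q r c c' (neg t) g2, w, w, w, w]
    have := pair_B m (-W (c 0) (c' 0) t) (-W (c 1) (c' 1) t) (-W (c 2) (c' 2) t)
      (-W (c 3) (c' 3) t)
    simp only [neg_neg, sub_neg_eq_add] at this
    simp only [n0, hp, hq, hr]
    simp [cls3]
    linarith
  · -- 110 : neg of 001 : class 2, neg class 3
    have g1 : cls3 (t p) (t q) (t r) = 2 := by rw [hp, hq, hr]; decide
    have g2 : cls3 (neg t p) (neg t q) (neg t r) = 3 := by rw [n0, n0, n0, hp, hq, hr]; decide
    rw [V_2 p q r c c' t g1, V_3 p q r c c' (neg t) g2, w, w, w, w]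
    have := pair_C m (-W (c 0) (c' 0) t) (-W (c 1) (c' 1) t) (-W (c 2) (c' 2) t)
      (-W (c 3) (c' 3) t)
    simp only [neg_neg, sub_neg_eq_add] at this
    simp only [n0, hp, hq, hr]
    simp [cls3]
    linarith
  · -- 111
    have g1 : cls3 (t p) (t q) (t r) = 0 := by rw [hp, hq, hr]; decide
    have g2 : cls3 (neg t p) (neg t q) (neg t r) = 0 := by rw [n0, n0, n0, hp, hq, hr]; decide
    rw [V_0 p q r c c' t g1, V_0 p q r c c' (neg t) g2]
    simp only [n0, hp, hq, hr]
    simp [cls3]

end Pool.Agent.Lib.MP_e6e31f_sep
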