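import Pool.Agent.Lib.MP_e6e31f_sep.LemmaT

/-!
# The lemma on four pairs of hats and one triple of hats, second part
-/

set_option autoImplicit false

open Finset

namespace Pool.Agent.Lib.MP_e6e31f_sep

variable {h : ℕ}

/-- `0` if both hats are in the triple, else `1` -/
def nin (p q r c c' : Fin h) : ℕ :=
  if (c = p ∨ c = q ∨ c = r) ∧ (c' = p ∨ c' = q ∨ c' = r) then 0 else 1

/-- `1` if both hats are outside the triple, else `0` -/
def out (p q r c c' : Fin h) : ℕ :=
  if ¬ (c = p ∨ c = q ∨ c = r) ∧ ¬ (c' = p ∨ c' = q ∨ c' = r) then 1 else 0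

theorem two_le_sym (p q r : Fin h) (t : Fin h → Bool) (i : Fin h) :
    2 ≤ sym p q r t i ↔ (i = p ∨ i = q ∨ i = r) := by
  unfold sym
  have := Bool.toNat_lt (t i)
  constructor
  · intro hh
    by_contra hc
    push Not at hc
    rw [if_neg hc.1, if_neg hc.2.1, if_neg hc.2.2] at hh
    omega
  · intro hh
    split_ifs with h1 h2 h3 <;> omega

theorem code_div (p q r : Fin h) (t : Fin h → Bool) (c c' : Fin h) :
    code p q r t c c' / 5 = sym p q r t c := by
  have h2 := sym_lt p q r t c'
  unfold code; omega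

theorem code_mod (p q r : Fin h) (t : Fin h → Bool) (c c' : Fin h) :
    code p q r t c c' % 5 = sym p q r t c' := by
  have h2 := sym_lt p q r t c'
  unfold code; omega

theorem nt_code (p q r : Fin h) (t : Fin h → Bool) (c c' : Fin h) :
    nt (code p q r t c c') = nin p q r c c' := by
  unfold nt nin
  rw [code_div, code_mod]
  simp only [two_le_sym]

theorem ot_code (p q r : Fin h) (t : Fin h → Bool) (c c' : Fin h) :
    ot (code p q r t c c') = out p q r c c' := by
  unfold ot out
  rw [code_div, code_mod]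
  simp only [← not_le, two_le_sym]

theorem setb_p (p q r : Fin h) (x y z : Bool) (t : Fin h → Bool) :
    setb p q r x y z t p = x := by simp [setb]
theorem setb_q {p q : Fin h} (r : Fin h) (hpq : p ≠ q) (x y z : Bool) (t : Fin h → Bool) :
    setb p q r x y z t q = y := by simp [setb, hpq.symm]
theorem setb_r {p q r : Fin h} (hpr : p ≠ r) (hqr : q ≠ r) (x y z : Bool) (t : Fin h → Bool) :
    setb p q r x y z t r = z := by simp [setb, hpr.symm, hqr.symm]
theorem setb_o {p q r i : Fin h} (hi : ¬ (i = p ∨ i = q ∨ i = r)) (x y z : Bool)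
    (t : Fin h → Bool) : setb p q r x y z t i = t i := by
  push Not at hi
  simp [setb, hi.1, hi.2.1, hi.2.2]

theorem w_code (p q r : Fin h) (t : Fin h → Bool) (c c' : Fin h) :
    ((ot (code p q r t c c') * ad (ev (code p q r t c c') 0) 1 : ℕ) : ℤ) =
      out p q r c c' * |W c c' t| := by
  rw [ot_code]
  unfold out
  split_ifs with hc
  · have e := ev_code p q r t c c' false false false
    have e0 : bn false false false = 0 := rfl
    rw [e0] at e
    rw [Nat.cast_mul, ad_int, e]
    have e1 : W c c' (setb p q r false false false t) = W c c' t := by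
      unfold W
      rw [setb_o hc.1, setb_o hc.2]
    rw [e1]
    simp
  · simp

section

variable (p q r : Fin h) (m : ℤ) (c c' : Fin 4 → Fin h) (t : Fin h → Bool)

theorem L_mono (hpq : p ≠ q) (hpr : p ≠ r) (hqr : q ≠ r) (x : Bool) :
    L p q r m c c' (setb p q r x x x t) = (m - 1) *
      ((ad (ev (code p q r t (c 0) (c' 0)) (bn x x x) + ev (code p q r t (c 1) (c' 1)) (bn x x x) +
        ev (code p q r t (c 2) (c' 2)) (bn x x x) + ev (code p q r t (c 3) (c' 3)) (bn x x x)) 4 : ℕ)
        : ℤ) := by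
  unfold L
  rw [setb_p, setb_q r hpq, setb_r hpr hqr]
  rw [if_pos ⟨rfl, rfl⟩, ad_int]
  push_cast
  rw [ev_code, ev_code, ev_code, ev_code]
  congr 2
  ring

theorem L_A (hpq : p ≠ q) (hpr : p ≠ r) (hqr : q ≠ r) (x y : Bool) (hxy : x ≠ y) :
    L p q r m c c' (setb p q r x y y t) = m *
      ((mpn (code p q r t (c 0) (c' 0)) (code p q r t (c 2) (c' 2)) (code p q r t (c 1) (c' 1))
        (code p q r t (c 3) (c' 3)) (bn x y y) : ℕ) : ℤ) := by
  unfold L
  rw [setb_p, setb_q r hpq, setb_r hpr hqr]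
  rw [if_neg (fun hh => hxy hh.1), if_pos rfl, mpn_int]

theorem L_B (hpq : p ≠ q) (hpr : p ≠ r) (hqr : q ≠ r) (x y : Bool) (hxy : x ≠ y) :
    L p q r m c c' (setb p q r x y x t) = m *
      ((mpn (code p q r t (c 0) (c' 0)) (code p q r t (c 3) (c' 3)) (code p q r t (c 1) (c' 1))
        (code p q r t (c 2) (c' 2)) (bn x y x) : ℕ) : ℤ) := by
  unfold L
  rw [setb_p, setb_q r hpq, setb_r hpr hqr]
  rw [if_neg (fun hh => hxy hh.1), if_neg (fun hh => hxy hh.symm), if_pos rfl, mpn_int]

theorem L_C (hpq : p ≠ q) (hpr : p ≠ r) (hqr : q ≠ r) (x y : Bool) (hxy : x ≠ y) :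
    L p q r m c c' (setb p q r x x y t) = m *
      ((mpn (code p q r t (c 0) (c' 0)) (code p q r t (c 1) (c' 1)) (code p q r t (c 2) (c' 2))
        (code p q r t (c 3) (c' 3)) (bn x x y) : ℕ) : ℤ) := by
  unfold L
  rw [setb_p, setb_q r hpq, setb_r hpr hqr]
  rw [if_neg (fun hh => hxy hh.2), if_neg hxy, if_neg hxy, mpn_int]

/-- sum over the eight settings -/
theorem sum_L (hpq : p ≠ q) (hpr : p ≠ r) (hqr : q ≠ r) :
    ∑ x : Bool, ∑ y : Bool, ∑ z : Bool, L p q r m c c' (setb p q r x y z t) =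
      m * (Ns (code p q r t (c 0) (c' 0)) (code p q r t (c 1) (c' 1))
        (code p q r t (c 2) (c' 2)) (code p q r t (c 3) (c' 3)) : ℕ) +
      (m - 1) * (Cs (code p q r t (c 0) (c' 0)) (code p q r t (c 1) (c' 1))
        (code p q r t (c 2) (c' 2)) (code p q r t (c 3) (c' 3)) : ℕ) := by
  simp only [Fintype.sum_bool]
  rw [L_mono p q r m c c' t hpq hpr hqr true, L_mono p q r m c c' t hpq hpr hqr false,
    L_C p q r m c c' t hpq hpr hqr true false (by decide),
    L_C p q r m c c' t hpq hpr hqr false true (by decide),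
    L_B p q r m c c' t hpq hpr hqr true false (by decide),
    L_B p q r m c c' t hpq hpr hqr false true (by decide),
    L_A p q r m c c' t hpq hpr hqr true false (by decide),
    L_A p q r m c c' t hpq hpr hqr false true (by decide)]
  have b0 : bn false false false = 0 := rfl
  have b7 : bn true true true = 7 := rfl
  have b1 : bn true false false = 1 := rfl
  have b2 : bn false true false = 2 := rfl
  have b4 : bn false false true = 4 := rfl
  have b6 : bn false true true = 6 := rfl
  have b5 : bn true false true = 5 := rfl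
  have b3 : bn true true false = 3 := rfl
  rw [b0, b1, b2, b3, b4, b5, b6, b7]
  unfold Ns Cs
  push_cast
  ring

end

/-- number of the pairs not inside the triple -/
def nn (p q r : Fin h) (c c' : Fin 4 → Fin h) : ℕ :=
  nin p q r (c 0) (c' 0) + nin p q r (c 1) (c' 1) + nin p q r (c 2) (c' 2) + nin p q r (c 3) (c' 3)

theorem mpn_le (p q r : Fin h) (t : Fin h → Bool) (a a' b b' c c' d d' : Fin h) (s : ℕ)
    (hs : s < 8) :
    mpn (code p q r t a a') (code p q r t b b') (code p q r t c c') (code p q r t d d') s ≤ 2 := by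
  unfold mpn
  exact max_le (ad_ev _ (code_lt _ _ _ _ _ _) _ (code_lt _ _ _ _ _ _) _ hs)
    (ad_ev _ (code_lt _ _ _ _ _ _) _ (code_lt _ _ _ _ _ _) _ hs)

/-- the finite inequality -/
theorem fin_ineq (p q r : Fin h) (hpq : p ≠ q) (hpr : p ≠ r) (hqr : q ≠ r)
    (c c' : Fin 4 → Fin h) (t : Fin h → Bool) :
    ∑ x : Bool, ∑ y : Bool, ∑ z : Bool,
      L p q r (max (nn p q r c c') 1 : ℕ) c c' (setb p q r x y z t) ≤
      12 * (max (nn p q r c c') 1 : ℕ) +
      (if 2 ≤ nn p q r c c' then ((max (nn p q r c c') 1 : ℕ) : ℤ) *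
        (out p q r (c 0) (c' 0) * (2 * |W (c 0) (c' 0) t| - 1) +
         out p q r (c 1) (c' 1) * (2 * |W (c 1) (c' 1) t| - 1) +
         out p q r (c 2) (c' 2) * (2 * |W (c 2) (c' 2) t| - 1) +
         out p q r (c 3) (c' 3) * (2 * |W (c 3) (c' 3) t| - 1)) else 0) := by
  rw [sum_L p q r _ c c' t hpq hpr hqr]
  have hn : ms (code p q r t (c 0) (c' 0)) (code p q r t (c 1) (c' 1))
        (code p q r t (c 2) (c' 2)) (code p q r t (c 3) (c' 3)) = nn p q r c c' := by
    unfold ms nn
    rw [nt_code, nt_code, nt_code, nt_code]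
  by_cases h2 : 2 ≤ nn p q r c c'
  · rw [if_pos h2]
    have hm : max (nn p q r c c') 1 = nn p q r c c' := by omega
    rw [hm]
    have hI := ineq_all (code_lt p q r t (c 0) (c' 0)) (code_lt p q r t (c 1) (c' 1))
      (code_lt p q r t (c 2) (c' 2)) (code_lt p q r t (c 3) (c' 3))
    unfold Ineq at hI
    rw [hn] at hI
    rcases hI with hI | hI
    · omega
    · have hI' : ((nn p q r c c' * (Ns (code p q r t (c 0) (c' 0)) (code p q r t (c 1) (c' 1))
        (code p q r t (c 2) (c' 2)) (code p q r t (c 3) (c' 3)) +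
        os (code p q r t (c 0) (c' 0)) (code p q r t (c 1) (c' 1))
        (code p q r t (c 2) (c' 2)) (code p q r t (c 3) (c' 3))) + (nn p q r c c' - 1) *
        Cs (code p q r t (c 0) (c' 0)) (code p q r t (c 1) (c' 1))
        (code p q r t (c 2) (c' 2)) (code p q r t (c 3) (c' 3)) : ℕ) : ℤ) ≤
        ((nn p q r c c' * (12 + (ws (code p q r t (c 0) (c' 0)) (code p q r t (c 1) (c' 1))
        (code p q r t (c 2) (c' 2)) (code p q r t (c 3) (c' 3)) +
        ws (code p q r t (c 0) (c' 0)) (code p q r t (c 1) (c' 1))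
        (code p q r t (c 2) (c' 2)) (code p q r t (c 3) (c' 3)))) : ℕ) : ℤ) := by
        exact_mod_cast hI
      have ho : ((os (code p q r t (c 0) (c' 0)) (code p q r t (c 1) (c' 1))
        (code p q r t (c 2) (c' 2)) (code p q r t (c 3) (c' 3)) : ℕ) : ℤ) =
        out p q r (c 0) (c' 0) + out p q r (c 1) (c' 1) + out p q r (c 2) (c' 2) +
        out p q r (c 3) (c' 3) := by
        unfold os
        rw [ot_code, ot_code, ot_code, ot_code]
        push_cast
        ring
      have hw : ((ws (code p q r t (c 0) (c' 0)) (code p q r t (c 1) (c' 1))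
        (code p q r t (c 2) (c' 2)) (code p q r t (c 3) (c' 3)) : ℕ) : ℤ) =
        out p q r (c 0) (c' 0) * |W (c 0) (c' 0) t| + out p q r (c 1) (c' 1) * |W (c 1) (c' 1) t| +
        out p q r (c 2) (c' 2) * |W (c 2) (c' 2) t| +
        out p q r (c 3) (c' 3) * |W (c 3) (c' 3) t| := by
        unfold ws
        rw [← w_code, ← w_code, ← w_code, ← w_code]
        push_cast
        ring
      have h1 : ((nn p q r c c' - 1 : ℕ) : ℤ) = (nn p q r c c' : ℤ) - 1 := by
        have : 1 ≤ nn p q r c c' := by omega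
        push_cast [Nat.cast_sub this]
        ring
      rw [Nat.cast_add, Nat.cast_mul, Nat.cast_mul, Nat.cast_mul, Nat.cast_add, Nat.cast_add,
        Nat.cast_add, ho, hw, h1] at hI'
      push_cast at hI'
      linarith
  · rw [if_neg h2]
    have hm : max (nn p q r c c') 1 = 1 := by omega
    rw [hm]
    have hN : Ns (code p q r t (c 0) (c' 0)) (code p q r t (c 1) (c' 1))
        (code p q r t (c 2) (c' 2)) (code p q r t (c 3) (c' 3)) ≤ 12 := by
      unfold Ns
      have a1 := mpn_le p q r t (c 0) (c' 0) (c 2) (c' 2) (c 1) (c' 1) (c 3) (c' 3) 1 (by norm_num)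
      have a2 := mpn_le p q r t (c 0) (c' 0) (c 2) (c' 2) (c 1) (c' 1) (c 3) (c' 3) 6 (by norm_num)
      have a3 := mpn_le p q r t (c 0) (c' 0) (c 3) (c' 3) (c 1) (c' 1) (c 2) (c' 2) 2 (by norm_num)
      have a4 := mpn_le p q r t (c 0) (c' 0) (c 3) (c' 3) (c 1) (c' 1) (c 2) (c' 2) 5 (by norm_num)
      have a5 := mpn_le p q r t (c 0) (c' 0) (c 1) (c' 1) (c 2) (c' 2) (c 3) (c' 3) 4 (by norm_num)
      have a6 := mpn_le p q r t (c 0) (c' 0) (c 1) (c' 1) (c 2) (c' 2) (c 3) (c' 3) 3 (by norm_num)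
      omega
    have hN' : ((Ns (code p q r t (c 0) (c' 0)) (code p q r t (c 1) (c' 1))
        (code p q r t (c 2) (c' 2)) (code p q r t (c 3) (c' 3)) : ℕ) : ℤ) ≤ 12 := by
      exact_mod_cast hN
    push_cast
    linarith

/-- averaging over the eight settings -/
theorem avg (p q r : Fin h) (hpq : p ≠ q) (hpr : p ≠ r) (hqr : q ≠ r)
    (C : Finset (Fin h → Bool)) (hset : ∀ x y z, ∀ t ∈ C, setb p q r x y z t ∈ C)
    (G : (Fin h → Bool) → ℤ) :
    ∑ t ∈ C, ∑ x : Bool, ∑ y : Bool, ∑ z : Bool, G (setb p q r x y z t) = 8 * ∑ t ∈ C, G t := by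
  have hinv : ∀ x y z : Bool, ∀ t : Fin h → Bool,
      (fun t : Fin h → Bool => setb p q r (xor x (t p)) (xor y (t q)) (xor z (t r)) t)
      ((fun t : Fin h → Bool => setb p q r (xor x (t p)) (xor y (t q)) (xor z (t r)) t) t) = t := by
    intro x y z t
    funext i
    simp only [setb_p, setb_q r hpq, setb_r hpr hqr]
    unfold setb
    by_cases h1 : i = p
    · subst h1; simp
    · by_cases h2 : i = q
      · subst h2; simp [h1]
      · by_cases h3 : i = r
        · subst h3; simp [h1, h2]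
        · simp [h1, h2, h3]
  have hsum : ∀ x y z : Bool, ∑ t ∈ C, G (setb p q r (xor x (t p)) (xor y (t q)) (xor z (t r)) t) =
      ∑ t ∈ C, G t := by
    intro x y z
    refine Finset.sum_nbij'
      (fun t : Fin h → Bool => setb p q r (xor x (t p)) (xor y (t q)) (xor z (t r)) t)
      (fun t : Fin h → Bool => setb p q r (xor x (t p)) (xor y (t q)) (xor z (t r)) t)
      (fun t ht => hset _ _ _ t ht) (fun t ht => hset _ _ _ t ht)
      (fun t _ => hinv x y z t) (fun t _ => hinv x y z t) (fun t _ => rfl)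
  have hpt : ∀ t : Fin h → Bool, ∑ x : Bool, ∑ y : Bool, ∑ z : Bool, G (setb p q r x y z t) =
      ∑ x : Bool, ∑ y : Bool, ∑ z : Bool,
        G (setb p q r (xor x (t p)) (xor y (t q)) (xor z (t r)) t) := by
    intro t
    have hg : ∀ a b c : Bool, ∑ x : Bool, ∑ y : Bool, ∑ z : Bool, G (setb p q r x y z t) =
      ∑ x : Bool, ∑ y : Bool, ∑ z : Bool, G (setb p q r (xor x a) (xor y b) (xor z c) t) := by
      intro a b c
      simp only [Fintype.sum_bool]
      cases a <;> cases b <;> cases c <;> simp <;> ring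
    exact hg _ _ _
  rw [Finset.sum_congr rfl (fun t _ => hpt t)]
  simp only [Fintype.sum_bool, Finset.sum_add_distrib, hsum]
  ring

end Pool.Agent.Lib.MP_e6e31f_sep
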