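import Pool.Agent.Lib.MP_e6e31f_sep.LemmaT2

/-!
# The lemma on four pairs of hats and one triple of hats, third part
-/

set_option autoImplicit false

open Finset

namespace Pool.Agent.Lib.MP_e6e31f_sep

variable {h : ℕ}

theorem sum_K1 (p q r : Fin h) (m : ℤ) (c c' : Fin 4 → Fin h)
    (C : Finset (Fin h → Bool)) (hneg : ∀ t ∈ C, neg t ∈ C) :
    ∑ t ∈ C, K1 p q r m c c' t = ∑ t ∈ C, L p q r m c c' t := by
  have hs : ∀ G : (Fin h → Bool) → ℤ, ∑ t ∈ C, G (neg t) = ∑ t ∈ C, G t := by
    intro G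
    exact Finset.sum_nbij' neg neg hneg hneg (fun t _ => neg_neg' t) (fun t _ => neg_neg' t)
      (fun t _ => rfl)
  have h1 : ∑ t ∈ C, (K1 p q r m c c' t + K1 p q r m c c' (neg t)) =
      ∑ t ∈ C, (L p q r m c c' t + L p q r m c c' (neg t)) :=
    Finset.sum_congr rfl (fun t _ => K1_neg p q r m c c' t)
  rw [Finset.sum_add_distrib, Finset.sum_add_distrib, hs (K1 p q r m c c'),
    hs (L p q r m c c')] at h1
  linarith

/-- sum of `L` over the family -/
theorem sum_L_le (p q r : Fin h) (hpq : p ≠ q) (hpr : p ≠ r) (hqr : q ≠ r)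
    (c c' : Fin 4 → Fin h) (C : Finset (Fin h → Bool))
    (hset : ∀ x y z, ∀ t ∈ C, setb p q r x y z t ∈ C)
    (hhalf : ∀ a b : Fin h, 2 * ∑ t ∈ C, |W a b t| ≤ C.card) :
    8 * ∑ t ∈ C, L p q r (max (nn p q r c c') 1 : ℕ) c c' t ≤
      12 * (max (nn p q r c c') 1 : ℕ) * C.card := by
  rw [← avg p q r hpq hpr hqr C hset]
  have h1 := Finset.sum_le_sum (fun t (_ : t ∈ C) => fin_ineq p q r hpq hpr hqr c c' t)
  refine h1.trans ?_
  rw [Finset.sum_add_distrib, Finset.sum_const, nsmul_eq_mul]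
  have hj : ∀ a b : Fin h, ∑ t ∈ C, (out p q r a b : ℤ) * (2 * |W a b t| - 1) ≤ 0 := by
    intro a b
    rw [← Finset.mul_sum, Finset.sum_sub_distrib, ← Finset.mul_sum, Finset.sum_const, nsmul_eq_mul]
    have := hhalf a b
    have h0 : (0 : ℤ) ≤ out p q r a b := by positivity
    have h2 : 2 * ∑ t ∈ C, |W a b t| - (C.card : ℤ) * 1 ≤ 0 := by linarith
    exact mul_nonpos_of_nonneg_of_nonpos h0 h2
  have h2 : ∑ t ∈ C, (if 2 ≤ nn p q r c c' then ((max (nn p q r c c') 1 : ℕ) : ℤ) *
        (out p q r (c 0) (c' 0) * (2 * |W (c 0) (c' 0) t| - 1) +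
         out p q r (c 1) (c' 1) * (2 * |W (c 1) (c' 1) t| - 1) +
         out p q r (c 2) (c' 2) * (2 * |W (c 2) (c' 2) t| - 1) +
         out p q r (c 3) (c' 3) * (2 * |W (c 3) (c' 3) t| - 1)) else 0) ≤ 0 := by
    split_ifs
    · rw [← Finset.mul_sum]
      refine mul_nonpos_of_nonneg_of_nonpos (by positivity) ?_
      rw [Finset.sum_add_distrib, Finset.sum_add_distrib, Finset.sum_add_distrib]
      have a0 := hj (c 0) (c' 0)
      have a1 := hj (c 1) (c' 1)
      have a2 := hj (c 2) (c' 2)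
      have a3 := hj (c 3) (c' 3)
      linarith
    · simp
  linarith

theorem W_inside (p q r a b : Fin h) (t : Fin h → Bool) (hab : nin p q r a b = 0)
    (ht : cls3 (t p) (t q) (t r) = 0) : W a b t = 0 := by
  have hin : (a = p ∨ a = q ∨ a = r) ∧ (b = p ∨ b = q ∨ b = r) := by
    by_contra hc
    unfold nin at hab
    rw [if_neg hc] at hab
    exact absurd hab (by decide)
  have hm : t p = t q ∧ t q = t r := by
    generalize t p = x at *
    generalize t q = y at *
    generalize t r = z at *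
    revert ht
    cases x <;> cases y <;> cases z <;> decide
  unfold W
  have key : ∀ i, (i = p ∨ i = q ∨ i = r) → t i = t q := by
    rintro i (rfl | rfl | rfl)
    · exact hm.1
    · rfl
    · exact hm.2.symm
  rw [key a hin.1, key b hin.2, sub_self]

/-- LEMMA T -/
theorem lemmaT (p q r : Fin h) (hpq : p ≠ q) (hpr : p ≠ r) (hqr : q ≠ r)
    (C : Finset (Fin h → Bool)) (hneg : ∀ t ∈ C, neg t ∈ C)
    (hset : ∀ x y z, ∀ t ∈ C, setb p q r x y z t ∈ C)
    (hhalf : ∀ a b : Fin h, 2 * ∑ t ∈ C, |W a b t| ≤ C.card)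
    (F : (Fin h → Bool) → ℤ) (hF : ∀ t, |F t| ≤ 1) (c c' : Fin 4 → Fin h) :
    ∃ i, 2 * ∑ t ∈ C, F t * V p q r c c' t ≤ 3 * C.card +
      2 * ∑ t ∈ C.filter (fun t => cls3 (t p) (t q) (t r) = 0), F t * W (c i) (c' i) t := by
  obtain ⟨i, -, hi⟩ := Finset.exists_max_image (Finset.univ : Finset (Fin 4))
    (fun j => ∑ t ∈ C.filter (fun t => cls3 (t p) (t q) (t r) = 0), F t * W (c j) (c' j) t)
    ⟨0, Finset.mem_univ 0⟩
  refine ⟨i, ?_⟩
  set S : Fin 4 → ℤ := fun j =>
    ∑ t ∈ C.filter (fun t => cls3 (t p) (t q) (t r) = 0), F t * W (c j) (c' j) t with hS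
  set m : ℤ := ((max (nn p q r c c') 1 : ℕ) : ℤ) with hm
  have hm1 : (1 : ℤ) ≤ m := by
    rw [hm]; exact_mod_cast le_max_right _ _
  have hz : ∀ j, nin p q r (c j) (c' j) = 0 → S j = 0 := by
    intro j hj
    refine Finset.sum_eq_zero ?_
    intro t ht
    rw [W_inside p q r _ _ t hj (Finset.mem_filter.1 ht).2, mul_zero]
  have hle : ∀ j, S j ≤ nin p q r (c j) (c' j) * S i := by
    intro j
    rcases (show nin p q r (c j) (c' j) = 0 ∨ nin p q r (c j) (c' j) = 1 by
      unfold nin; split_ifs <;> simp) with h0 | h0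
    · rw [hz j h0, h0]; simp
    · rw [h0]
      have := hi j (Finset.mem_univ j)
      simpa using this
  have h1 : ∑ t ∈ C.filter (fun t => cls3 (t p) (t q) (t r) = 0), F t * V p q r c c' t ≤
      m * S i := by
    have e : ∑ t ∈ C.filter (fun t => cls3 (t p) (t q) (t r) = 0), F t * V p q r c c' t =
        S 0 + S 1 + S 2 + S 3 := by
      rw [hS]
      simp only
      rw [← Finset.sum_add_distrib, ← Finset.sum_add_distrib, ← Finset.sum_add_distrib]
      refine Finset.sum_congr rfl ?_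
      intro t ht
      rw [V_0 p q r c c' t (Finset.mem_filter.1 ht).2]
      ring
    rw [e]
    have b0 := hle 0
    have b1 := hle 1
    have b2 := hle 2
    have b3 := hle 3
    have b : S 0 + S 1 + S 2 + S 3 ≤ (nn p q r c c' : ℤ) * S i := by
      unfold nn
      push_cast
      linarith
    rcases Nat.eq_zero_or_pos (nn p q r c c') with hn | hn
    · have hi0 : S i = 0 := by
        apply hz
        unfold nn at hn
        fin_cases i
        · show nin p q r (c 0) (c' 0) = 0
          omega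
        · show nin p q r (c 1) (c' 1) = 0
          omega
        · show nin p q r (c 2) (c' 2) = 0
          omega
        · show nin p q r (c 3) (c' 3) = 0
          omega
      rw [hi0] at b ⊢
      linarith
    · have : m = (nn p q r c c' : ℤ) := by
        rw [hm]
        congr 1
        omega
      rw [this]
      exact b
  have h2 : m * ∑ t ∈ C, F t * V p q r c c' t -
      ∑ t ∈ C.filter (fun t => cls3 (t p) (t q) (t r) = 0), F t * V p q r c c' t ≤
      ∑ t ∈ C, K1 p q r m c c' t := by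
    rw [Finset.sum_filter, Finset.mul_sum, ← Finset.sum_sub_distrib]
    refine Finset.sum_le_sum ?_
    intro t _
    have hFV : F t * V p q r c c' t ≤ |V p q r c c' t| := by
      calc F t * V p q r c c' t ≤ |F t * V p q r c c' t| := le_abs_self _
        _ = |F t| * |V p q r c c' t| := abs_mul _ _
        _ ≤ 1 * |V p q r c c' t| := mul_le_mul_of_nonneg_right (hF t) (abs_nonneg _)
        _ = |V p q r c c' t| := one_mul _
    unfold K1
    split_ifs
    · have := mul_le_mul_of_nonneg_left hFV (show (0 : ℤ) ≤ m - 1 by linarith)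
      linarith
    · have := mul_le_mul_of_nonneg_left hFV (show (0 : ℤ) ≤ m by linarith)
      linarith
  have h3 := sum_K1 p q r m c c' C hneg
  have h4 := sum_L_le p q r hpq hpr hqr c c' C hset hhalf
  rw [← hm] at h4
  have h5 : m * (2 * ∑ t ∈ C, F t * V p q r c c' t) ≤ m * (3 * C.card + 2 * S i) := by
    nlinarith
  exact le_of_mul_le_mul_left h5 (by linarith)

end Pool.Agent.Lib.MP_e6e31f_sep
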