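import Pool.Agent.Lib.MP_e6e31f_sep.Step

/-!
# The bound for separating strategies
-/

set_option autoImplicit false

open Finset

namespace Pool.Agent.Lib.MP_e6e31f_sep

variable {h d : ℕ}

/-- a function of the label that gives the class -/
theorem exists_cl (τ : Fin d → Fin 3 → Fin h) (f : (Fin h → Bool) → Fin h) (hf : Separating τ f)
    (k : Fin d) : ∃ cl : Fin h → Fin 4, ∀ t ∈ Ck τ k.val, cl (f t) = cls τ k t := by
  classical
  refine ⟨fun l => if hl : ∃ t, t ∈ Ck τ k.val ∧ f t = l then cls τ k hl.choose else 0, ?_⟩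
  intro t ht
  have hl : ∃ t', t' ∈ Ck τ k.val ∧ f t' = f t := ⟨t, ht, rfl⟩
  simp only [dif_pos hl]
  have h1 := hl.choose_spec
  exact hf _ _ h1.2 k (fun j hj => (mem_Ck τ _ _).1 h1.1 j hj) (fun j hj => (mem_Ck τ _ _).1 ht j hj)

theorem twist (τ : Fin d → Fin 3 → Fin h) (f g : (Fin h → Bool) → Fin h) (k : Fin d)
    (cl : Fin h → Fin 4) (hcl : ∀ t ∈ Ck τ k.val, cl (f t) = cls τ k t) (j : Fin 4) :
    S (Ck τ k.val) f g = ∑ s : Fin h → Bool, ∑ t ∈ Ck τ k.val,
      sg (s (f t)) * (H (cls τ k t) j * W (g (tw cl j s)) (g (neg (tw cl j s))) t) := by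
  have e0 : ∀ (s : Fin h → Bool), ∀ t ∈ Ck τ k.val,
      sg (tw cl j s (f t)) = sg (s (f t)) * H (cls τ k t) j := by
    intro s t ht
    unfold tw
    rw [sg_hx, hcl t ht]
  have e1 : S (Ck τ k.val) f g = ∑ s : Fin h → Bool, ∑ t ∈ Ck τ k.val,
      sg (s (f t)) * H (cls τ k t) j * sg (t (g (tw cl j s))) := by
    unfold S
    rw [← sum_tw cl j (fun s => ∑ t ∈ Ck τ k.val, sg (s (f t)) * sg (t (g s)))]
    refine Finset.sum_congr rfl (fun s _ => Finset.sum_congr rfl (fun t ht => ?_))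
    rw [e0 s t ht]
  have e2 : S (Ck τ k.val) f g = ∑ s : Fin h → Bool, ∑ t ∈ Ck τ k.val,
      -(sg (s (f t)) * H (cls τ k t) j * sg (t (g (neg (tw cl j s))))) := by
    rw [e1, ← sum_neg]
    refine Finset.sum_congr rfl (fun s _ => Finset.sum_congr rfl (fun t ht => ?_))
    rw [tw_neg]
    unfold neg
    rw [sg_not]
    ring
  have e3 : 2 * S (Ck τ k.val) f g = 2 * ∑ s : Fin h → Bool, ∑ t ∈ Ck τ k.val,
      sg (s (f t)) * (H (cls τ k t) j * W (g (tw cl j s)) (g (neg (tw cl j s))) t) := by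
    have : 2 * S (Ck τ k.val) f g = S (Ck τ k.val) f g + S (Ck τ k.val) f g := by ring
    rw [this]
    nth_rewrite 1 [e1]
    rw [e2, ← Finset.sum_add_distrib, Finset.mul_sum]
    refine Finset.sum_congr rfl (fun s _ => ?_)
    rw [← Finset.sum_add_distrib, Finset.mul_sum]
    refine Finset.sum_congr rfl (fun t _ => ?_)
    have := sg_sub (g (tw cl j s)) (g (neg (tw cl j s))) t
    linear_combination (sg (s (f t)) * H (cls τ k t) j) * this
  linarith

/-- reduction step -/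
theorem step (τ : Fin d → Fin 3 → Fin h)
    (hτ : Function.Injective (fun x : Fin d × Fin 3 => τ x.1 x.2))
    (f : (Fin h → Bool) → Fin h) (hf : Separating τ f) (k : Fin d)
    (g : (Fin h → Bool) → Fin h) :
    ∃ g' : (Fin h → Bool) → Fin h, 8 * S (Ck τ k.val) f g ≤
      3 * 2 ^ h * (Ck τ k.val).card + 2 * S (Ck τ (k.val + 1)) f g' := by
  obtain ⟨cl, hcl⟩ := exists_cl τ f hf k
  set B : (Fin h → Bool) → Fin h → ℤ := fun s c =>
    ∑ t ∈ Ck τ (k.val + 1), sg (s (f t)) * sg (t c) with hB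
  have hbest : ∀ s : Fin h → Bool, ∃ c0 : Fin h, ∀ c, B s c ≤ B s c0 := by
    intro s
    obtain ⟨c0, -, hc0⟩ := Finset.exists_max_image (Finset.univ : Finset (Fin h)) (B s)
      ⟨g s, Finset.mem_univ _⟩
    exact ⟨c0, fun c => hc0 c (Finset.mem_univ c)⟩
  choose g' hg' using hbest
  refine ⟨g', ?_⟩
  have h4 : 4 * S (Ck τ k.val) f g = ∑ s : Fin h → Bool, ∑ t ∈ Ck τ k.val,
      sg (s (f t)) * V (τ k 0) (τ k 1) (τ k 2) (fun j => g (tw cl j s))
        (fun j => g (neg (tw cl j s))) t := by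
    have e : 4 * S (Ck τ k.val) f g = ∑ _j : Fin 4, S (Ck τ k.val) f g := by
      simp [Finset.sum_const]
    rw [e, Finset.sum_congr rfl (fun j _ => twist τ f g k cl hcl j), Finset.sum_comm]
    refine Finset.sum_congr rfl (fun s _ => ?_)
    rw [Finset.sum_comm]
    refine Finset.sum_congr rfl (fun t _ => ?_)
    rw [← Finset.mul_sum]
    rfl
  have hs : ∀ s : Fin h → Bool, 2 * ∑ t ∈ Ck τ k.val,
      sg (s (f t)) * V (τ k 0) (τ k 1) (τ k 2) (fun j => g (tw cl j s))
        (fun j => g (neg (tw cl j s))) t ≤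
      3 * (Ck τ k.val).card + (B s (g' s) + B (neg s) (g' (neg s))) := by
    intro s
    obtain ⟨i, hi⟩ := lemmaT (τ k 0) (τ k 1) (τ k 2) (tau_ne' τ hτ k (by decide))
      (tau_ne' τ hτ k (by decide)) (tau_ne' τ hτ k (by decide)) (Ck τ k.val)
      (neg_mem τ k.val) (fun x y z t ht => setb_mem τ hτ k x y z t ht) (half τ hτ k.val)
      (fun t => sg (s (f t))) (fun t => le_of_eq (sg_abs _))
      (fun j => g (tw cl j s)) (fun j => g (neg (tw cl j s)))
    rw [← Ck_succ τ k] at hi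
    have e : 2 * ∑ t ∈ Ck τ (k.val + 1), sg (s (f t)) *
        W (g (tw cl i s)) (g (neg (tw cl i s))) t =
        B s (g (tw cl i s)) + B (neg s) (g (neg (tw cl i s))) := by
      rw [hB]
      simp only
      rw [← Finset.sum_add_distrib, Finset.mul_sum]
      refine Finset.sum_congr rfl (fun t _ => ?_)
      have h1 := sg_sub (g (tw cl i s)) (g (neg (tw cl i s))) t
      have h2 : sg (neg s (f t)) = - sg (s (f t)) := by
        unfold neg
        exact sg_not _
      rw [h2]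
      linear_combination (- sg (s (f t))) * h1
    have b1 := hg' s (g (tw cl i s))
    have b2 := hg' (neg s) (g (neg (tw cl i s)))
    refine hi.trans ?_
    rw [e]
    linarith
  have h8 : 8 * S (Ck τ k.val) f g = ∑ s : Fin h → Bool, 2 * ∑ t ∈ Ck τ k.val,
      sg (s (f t)) * V (τ k 0) (τ k 1) (τ k 2) (fun j => g (tw cl j s))
        (fun j => g (neg (tw cl j s))) t := by
    rw [← Finset.mul_sum, ← h4]; ring
  rw [h8]
  refine (Finset.sum_le_sum (fun s _ => hs s)).trans ?_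
  rw [Finset.sum_add_distrib, Finset.sum_const, card_stacks, Finset.sum_add_distrib,
    sum_neg (fun s => B s (g' s)), nsmul_eq_mul]
  have e : ∑ s : Fin h → Bool, B s (g' s) = S (Ck τ (k.val + 1)) f g' := rfl
  rw [e]
  push_cast
  linarith

/-- the bound for the signed sum -/
theorem bound (τ : Fin d → Fin 3 → Fin h)
    (hτ : Function.Injective (fun x : Fin d × Fin 3 => τ x.1 x.2))
    (f : (Fin h → Bool) → Fin h) (hf : Separating τ f) (n : ℕ) :
    ∀ k : ℕ, k + n = d → ∀ g : (Fin h → Bool) → Fin h,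
      (S (Ck τ k) f g : ℝ) ≤ (2 / 5 + 1 / (10 * 16 ^ n)) * 2 ^ h * (Ck τ k).card := by
  induction n with
  | zero =>
    intro k _ g
    have h1 := base (Ck τ k) (half τ hτ k) f g
    have h2 : (2 * S (Ck τ k) f g : ℝ) ≤ 2 ^ h * (Ck τ k).card := by exact_mod_cast h1
    have h3 : ((2 : ℝ) / 5 + 1 / (10 * 16 ^ 0)) = 1 / 2 := by norm_num
    rw [h3]
    linarith
  | succ n ih =>
    intro k hk g
    have hkd : k < d := by omega
    obtain ⟨g', hg'⟩ := step τ hτ f hf ⟨k, hkd⟩ g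
    have h1 := ih (k + 1) (by omega) g'
    have h2 := card_succ τ hτ ⟨k, hkd⟩
    simp only at hg' h2
    have h3 : (8 * S (Ck τ k) f g : ℝ) ≤
      3 * 2 ^ h * (Ck τ k).card + 2 * S (Ck τ (k + 1)) f g' := by exact_mod_cast hg'
    have h4 : (4 * (Ck τ (k + 1)).card : ℝ) = (Ck τ k).card := by exact_mod_cast h2
    have h5 : ((2 : ℝ) / 5 + 1 / (10 * 16 ^ (n + 1))) * 2 ^ h * (Ck τ k).card =
        (3 / 8) * 2 ^ h * (Ck τ k).card +
        (1 / 16) * ((2 / 5 + 1 / (10 * 16 ^ n)) * 2 ^ h * (Ck τ k).card) := by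
      have : ((16 : ℝ) ^ n) ≠ 0 := by positivity
      field_simp
      ring
    rw [h5]
    have h6 : (Ck τ (k + 1)).card = ((Ck τ k).card : ℝ) / 4 := by linarith
    rw [h6] at h1
    linarith

/-- pairs of stacks for which both players succeed -/
def wins (f g : (Fin h → Bool) → Fin h) : ℕ :=
  (Finset.univ.filter (fun p : (Fin h → Bool) × (Fin h → Bool) =>
    p.1 (f p.2) = true ∧ p.2 (g p.1) = true)).card

theorem four_wins (f g : (Fin h → Bool) → Fin h) :
    4 * (wins f g : ℤ) = 4 ^ h + S Finset.univ f g := by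
  have e1 : (wins f g : ℤ) = ∑ s : Fin h → Bool, ∑ t : Fin h → Bool,
      (if s (f t) = true ∧ t (g s) = true then (1 : ℤ) else 0) := by
    unfold wins
    rw [Finset.card_filter, ← Finset.univ_product_univ, Finset.sum_product]
    push_cast
    rfl
  have e2 : ∀ s t : Fin h → Bool, 4 * (if s (f t) = true ∧ t (g s) = true then (1 : ℤ) else 0) =
      1 + sg (s (f t)) + sg (t (g s)) + sg (s (f t)) * sg (t (g s)) := by
    intro s t
    cases s (f t) <;> cases t (g s) <;> decide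
  have z1 : ∀ l : Fin h, ∑ s : Fin h → Bool, sg (s l) = 0 := by
    intro l
    have h1 := sum_neg (fun s : Fin h → Bool => sg (s l))
    have h2 : ∀ s : Fin h → Bool, sg (neg s l) = - sg (s l) := fun s => sg_not _
    simp only [h2, Finset.sum_neg_distrib] at h1
    linarith
  have z2 : ∑ s : Fin h → Bool, ∑ t : Fin h → Bool, sg (s (f t)) = 0 := by
    rw [Finset.sum_comm]
    exact Finset.sum_eq_zero (fun t _ => z1 (f t))
  have z3 : ∑ s : Fin h → Bool, ∑ t : Fin h → Bool, sg (t (g s)) = 0 :=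
    Finset.sum_eq_zero (fun s _ => z1 (g s))
  have z4 : ∑ _s : Fin h → Bool, ∑ _t : Fin h → Bool, (1 : ℤ) = 4 ^ h := by
    simp only [Finset.sum_const, nsmul_eq_mul, mul_one, card_stacks]
    push_cast
    rw [← mul_pow]
    norm_num
  rw [e1, Finset.mul_sum]
  simp only [Finset.mul_sum, e2, Finset.sum_add_distrib]
  rw [z2, z3, z4]
  unfold S
  ring

theorem Ck_zero (τ : Fin d → Fin 3 → Fin h) : Ck τ 0 = Finset.univ := by
  ext t
  rw [mem_Ck]
  simp

theorem main_f (τ : Fin d → Fin 3 → Fin h)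
    (hτ : Function.Injective (fun x : Fin d × Fin 3 => τ x.1 x.2))
    (f g : (Fin h → Bool) → Fin h) (hf : Separating τ f) :
    (wins f g : ℝ) / 4 ^ h ≤ 7 / 20 + 1 / (40 * 16 ^ d) := by
  have h1 := bound τ hτ f hf d 0 (by omega) g
  rw [Ck_zero, card_stacks] at h1
  have h2 : (4 * (wins f g : ℝ)) = 4 ^ h + S Finset.univ f g := by exact_mod_cast four_wins f g
  have h3 : ((2 : ℝ) ^ h * ((2 ^ h : ℕ) : ℝ)) = 4 ^ h := by
    push_cast
    rw [← mul_pow]; norm_num
  rw [mul_assoc, h3] at h1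
  have h4 : (0 : ℝ) < 4 ^ h := by positivity
  rw [div_le_iff₀ h4]
  have h5 : (7 / 20 + 1 / (40 * 16 ^ d) : ℝ) = (1 + (2 / 5 + 1 / (10 * 16 ^ d))) / 4 := by
    have : ((16 : ℝ) ^ d) ≠ 0 := by positivity
    field_simp
    ring
  rw [h5]
  linarith

theorem wins_comm (f g : (Fin h → Bool) → Fin h) : wins f g = wins g f := by
  unfold wins
  refine Finset.card_bij (fun p _ => p.swap) ?_ ?_ ?_
  · intro p hp
    rw [Finset.mem_filter] at hp ⊢
    exact ⟨Finset.mem_univ _, hp.2.2, hp.2.1⟩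
  · intro p _ p' _ hpp
    exact Prod.swap_injective hpp
  · intro p hp
    rw [Finset.mem_filter] at hp
    exact ⟨p.swap, Finset.mem_filter.2 ⟨Finset.mem_univ _, hp.2.2, hp.2.1⟩, Prod.swap_swap p⟩

/-- THEOREM -/
theorem main (τ : Fin d → Fin 3 → Fin h)
    (hτ : Function.Injective (fun x : Fin d × Fin 3 => τ x.1 x.2))
    (f g : (Fin h → Bool) → Fin h) (hs : Separating τ f ∨ Separating τ g) :
    (wins f g : ℝ) / 4 ^ h ≤ 7 / 20 + 1 / (40 * 16 ^ d) := by
  rcases hs with hf | hg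
  · exact main_f τ hτ f g hf
  · rw [wins_comm]
    exact main_f τ hτ g f hg

end Pool.Agent.Lib.MP_e6e31f_sep
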