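import Pool.Agent.Lib.MP_e6e31f_sep.Main

/-!
# Stacks whose triples are of one colour: reduction to the game of all stacks
-/

set_option autoImplicit false

open Finset

namespace Pool.Agent.Lib.MP_e6e31f_sep

variable {h d : ℕ}

/-- representative of a hat -/
noncomputable def rep (τ : Fin d → Fin 3 → Fin h) (k : ℕ) (i : Fin h) : Fin h :=
  open Classical in
  if hx : ∃ j : Fin d, j.val < k ∧ ∃ x, τ j x = i then τ hx.choose 0 else i

/-- the stack in which the first `k` triples are made of one colour -/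
noncomputable def proj (τ : Fin d → Fin 3 → Fin h) (k : ℕ) (t : Fin h → Bool) : Fin h → Bool :=
  fun i => t (rep τ k i)

section

variable (τ : Fin d → Fin 3 → Fin h)
  (hτ : Function.Injective (fun x : Fin d × Fin 3 => τ x.1 x.2))

include hτ

theorem rep_in (k : ℕ) (j : Fin d) (hj : j.val < k) (x : Fin 3) : rep τ k (τ j x) = τ j 0 := by
  have hx : ∃ j' : Fin d, j'.val < k ∧ ∃ x', τ j' x' = τ j x := ⟨j, hj, x, rfl⟩
  unfold rep
  rw [dif_pos hx]
  obtain ⟨-, x', hx'⟩ := hx.choose_spec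
  have e1 := @hτ (hx.choose, x') (j, x) hx'
  rw [(Prod.mk.inj e1).1]

omit hτ in
theorem rep_out (k : ℕ) (i : Fin h) (hi : ∀ j : Fin d, j.val < k → ∀ x, τ j x ≠ i) :
    rep τ k i = i := by
  have hx : ¬ ∃ j' : Fin d, j'.val < k ∧ ∃ x', τ j' x' = i := by
    rintro ⟨j, hj, x, hx⟩
    exact hi j hj x hx
  unfold rep
  rw [dif_neg hx]

omit hτ in
theorem proj_zero (t : Fin h → Bool) : proj τ 0 t = t := by
  funext i
  unfold proj
  rw [rep_out τ 0 i (fun j hj => absurd hj (Nat.not_lt_zero _))]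

/-- the triple `k` is made of one colour -/
def mk (τ : Fin d → Fin 3 → Fin h) (k : Fin d) (t : Fin h → Bool) : Fin h → Bool :=
  setb (τ k 0) (τ k 1) (τ k 2) (t (τ k 0)) (t (τ k 0)) (t (τ k 0)) t

theorem mk_in (k : Fin d) (t : Fin h → Bool) (x : Fin 3) : mk τ k t (τ k x) = t (τ k 0) := by
  unfold mk
  fin_cases x
  · exact setb_p _ _ _ _ _ _ _
  · exact setb_q _ (tau_ne' τ hτ k (by decide)) _ _ _ _
  · exact setb_r (tau_ne' τ hτ k (by decide)) (tau_ne' τ hτ k (by decide)) _ _ _ _

omit hτ in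
theorem mk_out (k : Fin d) (t : Fin h → Bool) (i : Fin h) (hi : ∀ x, τ k x ≠ i) :
    mk τ k t i = t i := by
  unfold mk
  apply setb_o
  rintro (e | e | e)
  · exact hi 0 e.symm
  · exact hi 1 e.symm
  · exact hi 2 e.symm

theorem proj_succ (k : Fin d) (t : Fin h → Bool) :
    proj τ (k.val + 1) t = mk τ k (proj τ k.val t) := by
  funext i
  by_cases h1 : ∃ x, τ k x = i
  · obtain ⟨x, rfl⟩ := h1
    rw [mk_in τ hτ]
    unfold proj
    rw [rep_in τ hτ (k.val + 1) k (by omega) x, rep_out τ k.val (τ k 0)]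
    intro j hj x
    exact tau_ne τ hτ (fun e => by rw [e] at hj; exact lt_irrefl _ hj) _ _
  · push Not at h1
    rw [mk_out τ k _ i h1]
    unfold proj
    by_cases h2 : ∃ j : Fin d, j.val < k.val ∧ ∃ x, τ j x = i
    · obtain ⟨j, hj, x, rfl⟩ := h2
      rw [rep_in τ hτ (k.val + 1) j (by omega) x, rep_in τ hτ k.val j hj x]
    · push Not at h2
      rw [rep_out τ k.val i h2, rep_out τ (k.val + 1) i]
      intro j hj x
      rcases Nat.lt_succ_iff_lt_or_eq.1 hj with h3 | h3
      · exact h2 j h3 x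
      · have : j = k := Fin.ext h3
        rw [this]
        exact h1 x

theorem mk_sum (k : Fin d) (G : (Fin h → Bool) → ℤ) :
    ∑ u ∈ Ck τ k.val, G (mk τ k u) = 4 * ∑ u ∈ Ck τ (k.val + 1), G u := by
  have hp := tau_ne' τ hτ k (show (0 : Fin 3) ≠ 1 by decide)
  have hp2 := tau_ne' τ hτ k (show (0 : Fin 3) ≠ 2 by decide)
  have hq := tau_ne' τ hτ k (show (1 : Fin 3) ≠ 2 by decide)
  have hset := fun x y z (t : Fin h → Bool) (ht : t ∈ Ck τ k.val) => setb_mem τ hτ k x y z t ht
  have e1 := avg (τ k 0) (τ k 1) (τ k 2) hp hp2 hq _ hset (fun u => G (mk τ k u))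
  have e2 := avg (τ k 0) (τ k 1) (τ k 2) hp hp2 hq _ hset
    (fun u => if cls3 (u (τ k 0)) (u (τ k 1)) (u (τ k 2)) = 0 then G u else 0)
  have e3 : ∀ (x y z : Bool) (u : Fin h → Bool),
      mk τ k (setb (τ k 0) (τ k 1) (τ k 2) x y z u) = setb (τ k 0) (τ k 1) (τ k 2) x x x u := by
    intro x y z u
    funext i
    unfold mk
    rw [setb_p]
    unfold setb
    split_ifs <;> rfl
  simp only [e3] at e1
  simp only [setb_p, setb_q _ hp, setb_r hp2 hq] at e2
  rw [← Finset.sum_filter, ← Ck_succ τ k] at e2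
  simp only [Fintype.sum_bool] at e1 e2
  have c1 : cls3 true true true = 0 := by decide
  have c2 : ¬ cls3 true true false = 0 := by decide
  have c3 : ¬ cls3 true false true = 0 := by decide
  have c4 : ¬ cls3 true false false = 0 := by decide
  have c5 : ¬ cls3 false true true = 0 := by decide
  have c6 : ¬ cls3 false true false = 0 := by decide
  have c7 : ¬ cls3 false false true = 0 := by decide
  have c8 : cls3 false false false = 0 := by decide
  simp only [if_pos c1, if_neg c2, if_neg c3, if_neg c4, if_neg c5, if_neg c6, if_neg c7,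
    if_pos c8] at e2
  simp only [Finset.sum_add_distrib, Finset.sum_const_zero] at e1 e2
  linarith

theorem proj_sum (k : ℕ) (hk : k ≤ d) : ∀ G : (Fin h → Bool) → ℤ,
    ∑ t, G (proj τ k t) = 4 ^ k * ∑ u ∈ Ck τ k, G u := by
  induction k with
  | zero =>
    intro G
    rw [Ck_zero]
    simp only [proj_zero]
    ring
  | succ k ih =>
    intro G
    have hkd : k < d := by omega
    have h1 := ih (by omega) (fun t => G (mk τ ⟨k, hkd⟩ t))
    have h2 := mk_sum τ hτ ⟨k, hkd⟩ G
    have h3 : ∀ t, proj τ (k + 1) t = mk τ ⟨k, hkd⟩ (proj τ k t) := proj_succ τ hτ ⟨k, hkd⟩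
    simp only at h1 h2
    simp only [h3]
    rw [h1, h2]
    ring

/-- signed sum over the stacks with triples of one colour -/
theorem S_proj (f g : (Fin h → Bool) → Fin h) :
    S Finset.univ (fun t => f (proj τ d t)) (fun s => rep τ d (g s)) = 4 ^ d * S (Ck τ d) f g := by
  unfold S
  rw [Finset.mul_sum]
  refine Finset.sum_congr rfl (fun s _ => ?_)
  exact proj_sum τ hτ d le_rfl (fun u => sg (s (f u)) * sg (u (g s)))

theorem card_Ck (k : ℕ) (hk : k ≤ d) : (2 : ℤ) ^ h = 4 ^ k * (Ck τ k).card := by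
  have := proj_sum τ hτ k hk (fun _ => 1)
  simp only [Finset.sum_const, nsmul_eq_mul, mul_one, card_stacks] at this
  push_cast at this
  exact this

end

end Pool.Agent.Lib.MP_e6e31f_sep
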