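import Pool.Agent.Lib.MP_e6e31f_sep.LemmaT3

/-!
# Reduction step for separating strategies
-/

set_option autoImplicit false

open Finset

namespace Pool.Agent.Lib.MP_e6e31f_sep

variable {h d : ℕ}

/-- class of the triple `k` of hats in the stack `t` -/
def cls (τ : Fin d → Fin 3 → Fin h) (k : Fin d) (t : Fin h → Bool) : Fin 4 :=
  cls3 (t (τ k 0)) (t (τ k 1)) (t (τ k 2))

/-- the value of the strategy determines the first triple that is not of one colour, and its
class -/
def Separating (τ : Fin d → Fin 3 → Fin h) (f : (Fin h → Bool) → Fin h) : Prop :=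
  ∀ t t' : Fin h → Bool, f t = f t' → ∀ k : Fin d,
    (∀ j < k, cls τ j t = 0) → (∀ j < k, cls τ j t' = 0) → cls τ k t = cls τ k t'

/-- stacks whose first `k` triples are of one colour -/
def Ck (τ : Fin d → Fin 3 → Fin h) (k : ℕ) : Finset (Fin h → Bool) :=
  univ.filter (fun t => ∀ j : Fin d, j.val < k → cls τ j t = 0)

theorem mem_Ck (τ : Fin d → Fin 3 → Fin h) (k : ℕ) (t : Fin h → Bool) :
    t ∈ Ck τ k ↔ ∀ j : Fin d, j.val < k → cls τ j t = 0 := by
  unfold Ck
  simp

theorem cls3_zero (a b c : Bool) : cls3 a b c = 0 ↔ a = b ∧ b = c := by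
  cases a <;> cases b <;> cases c <;> decide

theorem cls_zero (τ : Fin d → Fin 3 → Fin h) (k : Fin d) (t : Fin h → Bool) :
    cls τ k t = 0 ↔ t (τ k 0) = t (τ k 1) ∧ t (τ k 1) = t (τ k 2) := cls3_zero _ _ _

theorem cls_zero_all (τ : Fin d → Fin 3 → Fin h) (k : Fin d) (t : Fin h → Bool)
    (hc : cls τ k t = 0) (x y : Fin 3) : t (τ k x) = t (τ k y) := by
  obtain ⟨h1, h2⟩ := (cls_zero τ k t).1 hc
  have key : ∀ z : Fin 3, t (τ k z) = t (τ k 1) := by
    intro z
    fin_cases z
    · exact h1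
    · rfl
    · exact h2.symm
  rw [key x, key y]

theorem neg_mem (τ : Fin d → Fin 3 → Fin h) (k : ℕ) (t : Fin h → Bool) (ht : t ∈ Ck τ k) :
    neg t ∈ Ck τ k := by
  rw [mem_Ck] at ht ⊢
  intro j hj
  have h1 := (cls_zero τ j t).1 (ht j hj)
  rw [cls_zero]
  unfold neg
  rw [h1.1, h1.2]
  exact ⟨rfl, rfl⟩

section

variable (τ : Fin d → Fin 3 → Fin h)
  (hτ : Function.Injective (fun x : Fin d × Fin 3 => τ x.1 x.2))

include hτ

theorem tau_ne {j k : Fin d} (hjk : j ≠ k) (x y : Fin 3) : τ j x ≠ τ k y := by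
  intro hh
  have := @hτ (j, x) (k, y) hh
  exact hjk (Prod.mk.inj this).1

theorem tau_ne' (k : Fin d) {x y : Fin 3} (hxy : x ≠ y) : τ k x ≠ τ k y := by
  intro hh
  have := @hτ (k, x) (k, y) hh
  exact hxy (Prod.mk.inj this).2

theorem setb_mem (k : Fin d) (x y z : Bool) (t : Fin h → Bool) (ht : t ∈ Ck τ k.val) :
    setb (τ k 0) (τ k 1) (τ k 2) x y z t ∈ Ck τ k.val := by
  rw [mem_Ck] at ht ⊢
  intro j hj
  have hjk : j ≠ k := fun e => by rw [e] at hj; exact lt_irrefl _ hj
  have key : ∀ w : Fin 3, setb (τ k 0) (τ k 1) (τ k 2) x y z t (τ j w) = t (τ j w) := by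
    intro w
    apply setb_o
    rintro (e | e | e)
    · exact tau_ne τ hτ hjk _ _ e
    · exact tau_ne τ hτ hjk _ _ e
    · exact tau_ne τ hτ hjk _ _ e
  have := ht j hj
  unfold cls at this ⊢
  rw [key, key, key]
  exact this

theorem half (k : ℕ) (a b : Fin h) : 2 * ∑ t ∈ Ck τ k, |W a b t| ≤ (Ck τ k).card := by
  classical
  set grp : Fin h → Prop := fun i =>
    i = a ∨ ∃ j : Fin d, j.val < k ∧ (∃ x, τ j x = a) ∧ (∃ y, τ j y = i) with hgrp
  by_cases hb : grp b
  · have hz : ∑ t ∈ Ck τ k, |W a b t| = 0 := by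
      refine Finset.sum_eq_zero ?_
      intro t ht
      rw [mem_Ck] at ht
      have : t a = t b := by
        rcases hb with hb | ⟨j, hj, ⟨x, hx⟩, ⟨y, hy⟩⟩
        · rw [hb]
        · rw [← hx, ← hy]
          exact cls_zero_all τ j t (ht j hj) x y
      unfold W
      rw [this]
      simp
    rw [hz]
    positivity
  · set fl : (Fin h → Bool) → (Fin h → Bool) := fun t i => if grp i then !(t i) else t i with hfl
    have hinv : ∀ t, fl (fl t) = t := by
      intro t
      funext i
      simp only [hfl]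
      by_cases hi : grp i
      · simp [hi]
      · simp [hi]
    have hmem : ∀ t ∈ Ck τ k, fl t ∈ Ck τ k := by
      intro t ht
      rw [mem_Ck] at ht ⊢
      intro j hj
      have h0 := (cls_zero τ j t).1 (ht j hj)
      rw [cls_zero]
      by_cases hx : ∃ x, τ j x = a
      · have key : ∀ y, fl t (τ j y) = !(t (τ j y)) := by
          intro y
          have : grp (τ j y) := Or.inr ⟨j, hj, hx, ⟨y, rfl⟩⟩
          simp only [hfl, if_pos this]
        rw [key, key, key, h0.1, h0.2]
        exact ⟨rfl, rfl⟩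
      · have key : ∀ y, fl t (τ j y) = t (τ j y) := by
          intro y
          have : ¬ grp (τ j y) := by
            rintro (e | ⟨j', hj', ⟨x', hx'⟩, ⟨y', hy'⟩⟩)
            · exact hx ⟨y, e⟩
            · have e1 := @hτ (j', y') (j, y) hy'
              have e2 : j' = j := (Prod.mk.inj e1).1
              rw [e2] at hx'
              exact hx ⟨x', hx'⟩
          simp only [hfl, if_neg this]
        rw [key, key, key]
        exact h0
    have hsum : ∑ t ∈ Ck τ k, |W a b (fl t)| = ∑ t ∈ Ck τ k, |W a b t| :=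
      Finset.sum_nbij' fl fl hmem hmem (fun t _ => hinv t) (fun t _ => hinv t) (fun t _ => rfl)
    have hpt : ∀ t, |W a b t| + |W a b (fl t)| = 1 := by
      intro t
      have ha : fl t a = !(t a) := by
        have : grp a := Or.inl rfl
        simp only [hfl, if_pos this]
      have hb' : fl t b = t b := by
        simp only [hfl, if_neg hb]
      unfold W
      rw [ha, hb']
      unfold bz
      cases t a <;> cases t b <;> simp
    have : ∑ t ∈ Ck τ k, (|W a b t| + |W a b (fl t)|) = (Ck τ k).card := by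
      rw [Finset.sum_congr rfl (fun t _ => hpt t)]
      simp
    rw [Finset.sum_add_distrib, hsum] at this
    linarith

omit hτ in
theorem Ck_succ (k : Fin d) : Ck τ (k.val + 1) =
    (Ck τ k.val).filter (fun t => cls3 (t (τ k 0)) (t (τ k 1)) (t (τ k 2)) = 0) := by
  ext t
  rw [Finset.mem_filter, mem_Ck, mem_Ck]
  constructor
  · intro hh
    exact ⟨fun j hj => hh j (by omega), hh k (by omega)⟩
  · rintro ⟨h1, h2⟩ j hj
    rcases Nat.lt_succ_iff_lt_or_eq.1 hj with h3 | h3
    · exact h1 j h3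
    · have : j = k := Fin.ext h3
      rw [this]
      exact h2

theorem card_succ (k : Fin d) : 4 * ((Ck τ (k.val + 1)).card : ℤ) = (Ck τ k.val).card := by
  have h1 := avg (τ k 0) (τ k 1) (τ k 2) (tau_ne' τ hτ k (by decide)) (tau_ne' τ hτ k (by decide))
    (tau_ne' τ hτ k (by decide)) (Ck τ k.val) (fun x y z t ht => setb_mem τ hτ k x y z t ht)
    (fun t => if cls3 (t (τ k 0)) (t (τ k 1)) (t (τ k 2)) = 0 then 1 else 0)
  have h2 : ∀ t : Fin h → Bool, ∑ x : Bool, ∑ y : Bool, ∑ z : Bool,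
      (if cls3 (setb (τ k 0) (τ k 1) (τ k 2) x y z t (τ k 0))
        (setb (τ k 0) (τ k 1) (τ k 2) x y z t (τ k 1))
        (setb (τ k 0) (τ k 1) (τ k 2) x y z t (τ k 2)) = 0 then (1 : ℤ) else 0) = 2 := by
    intro t
    have e : ∀ x y z : Bool, (if cls3 (setb (τ k 0) (τ k 1) (τ k 2) x y z t (τ k 0))
        (setb (τ k 0) (τ k 1) (τ k 2) x y z t (τ k 1))
        (setb (τ k 0) (τ k 1) (τ k 2) x y z t (τ k 2)) = 0 then (1 : ℤ) else 0) =
        if cls3 x y z = 0 then 1 else 0 := by
      intro x y z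
      rw [setb_p, setb_q _ (tau_ne' τ hτ k (by decide)), setb_r (tau_ne' τ hτ k (by decide))
        (tau_ne' τ hτ k (by decide))]
    simp only [e]
    decide
  rw [Finset.sum_congr rfl (fun t _ => h2 t), ← Finset.sum_filter] at h1
  rw [Ck_succ τ k]
  simp only [Finset.sum_const, nsmul_eq_mul, mul_one] at h1
  linarith

end

/-- colour as a sign -/
def sg (b : Bool) : ℤ := 2 * bz b - 1

/-- the signed sum over the stacks `t` in a family -/
def S (C : Finset (Fin h → Bool)) (f g : (Fin h → Bool) → Fin h) : ℤ :=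
  ∑ s : Fin h → Bool, ∑ t ∈ C, sg (s (f t)) * sg (t (g s))

theorem sg_not (b : Bool) : sg (!b) = - sg b := by cases b <;> decide

theorem sg_sub (c c' : Fin h) (t : Fin h → Bool) : sg (t c) - sg (t c') = 2 * W c c' t := by
  unfold sg W; ring

theorem sg_abs (b : Bool) : |sg b| = 1 := by cases b <;> decide

theorem sum_neg (G : (Fin h → Bool) → ℤ) : ∑ s, G (neg s) = ∑ s, G s :=
  Finset.sum_nbij' neg neg (fun _ _ => Finset.mem_univ _) (fun _ _ => Finset.mem_univ _)
    (fun t _ => neg_neg' t) (fun t _ => neg_neg' t) (fun _ _ => rfl)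

theorem card_stacks : (Finset.univ : Finset (Fin h → Bool)).card = 2 ^ h := by
  simp

theorem base (C : Finset (Fin h → Bool)) (hhalf : ∀ a b : Fin h, 2 * ∑ t ∈ C, |W a b t| ≤ C.card)
    (f g : (Fin h → Bool) → Fin h) : 2 * S C f g ≤ 2 ^ h * C.card := by
  have h1 : 2 * S C f g = ∑ s : Fin h → Bool, ∑ t ∈ C, sg (s (f t)) * (2 * W (g s) (g (neg s)) t)
      := by
    have e1 : S C f g = ∑ s : Fin h → Bool, ∑ t ∈ C, sg (neg s (f t)) * sg (t (g (neg s))) :=
      (sum_neg (fun s => ∑ t ∈ C, sg (s (f t)) * sg (t (g s)))).symm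
    have e2 : 2 * S C f g = S C f g +
        ∑ s : Fin h → Bool, ∑ t ∈ C, sg (neg s (f t)) * sg (t (g (neg s))) := by
      rw [← e1]; ring
    rw [e2]
    unfold S
    rw [← Finset.sum_add_distrib]
    refine Finset.sum_congr rfl (fun s _ => ?_)
    rw [← Finset.sum_add_distrib]
    refine Finset.sum_congr rfl (fun t _ => ?_)
    rw [← sg_sub]
    unfold neg
    rw [sg_not]
    ring
  rw [h1]
  have h2 : ∀ s : Fin h → Bool, ∑ t ∈ C, sg (s (f t)) * (2 * W (g s) (g (neg s)) t) ≤ C.card := by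
    intro s
    refine le_trans ?_ (hhalf (g s) (g (neg s)))
    rw [Finset.mul_sum]
    refine Finset.sum_le_sum (fun t _ => ?_)
    calc sg (s (f t)) * (2 * W (g s) (g (neg s)) t)
        ≤ |sg (s (f t)) * (2 * W (g s) (g (neg s)) t)| := le_abs_self _
      _ = 2 * |W (g s) (g (neg s)) t| := by
        rw [abs_mul, sg_abs, abs_mul]
        norm_num
  refine (Finset.sum_le_sum (fun s _ => h2 s)).trans ?_
  rw [Finset.sum_const, card_stacks, nsmul_eq_mul]
  push_cast
  exact le_refl _

/-- entry of the Hadamard matrix as a change of colour -/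
def hx (i j : Fin 4) : Bool := decide (H i j = -1)

theorem sg_hx (b : Bool) (i j : Fin 4) : sg (xor b (hx i j)) = sg b * H i j := by
  revert b i j; decide

/-- twisted stack -/
def tw (cl : Fin h → Fin 4) (j : Fin 4) (s : Fin h → Bool) : Fin h → Bool :=
  fun l => xor (s l) (hx (cl l) j)

theorem tw_tw (cl : Fin h → Fin 4) (j : Fin 4) (s : Fin h → Bool) : tw cl j (tw cl j s) = s := by
  funext l
  unfold tw
  simp

theorem tw_neg (cl : Fin h → Fin 4) (j : Fin 4) (s : Fin h → Bool) :
    tw cl j (neg s) = neg (tw cl j s) := by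
  funext l
  unfold tw neg
  simp

theorem sum_tw (cl : Fin h → Fin 4) (j : Fin 4) (G : (Fin h → Bool) → ℤ) :
    ∑ s, G (tw cl j s) = ∑ s, G s :=
  Finset.sum_nbij' (tw cl j) (tw cl j) (fun _ _ => Finset.mem_univ _)
    (fun _ _ => Finset.mem_univ _) (fun t _ => tw_tw cl j t) (fun t _ => tw_tw cl j t)
    (fun _ _ => rfl)

end Pool.Agent.Lib.MP_e6e31f_sep
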