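import Pool.Agent.Lib.MP_e6e31f_sep.Check

/-!
# The tables are correct, and the inequality for all quadruples of codes
-/

set_option autoImplicit false

namespace Pool.Agent.Lib.MP_e6e31f_sep

theorem DA_eq : ∀ e < 25, ∀ f < 25,
    DA e f = 3 * ad (ev e 1) (ev f 1) + ad (ev e 6) (ev f 6) := by decide +kernel
theorem DB_eq : ∀ e < 25, ∀ f < 25,
    DB e f = 3 * ad (ev e 2) (ev f 2) + ad (ev e 5) (ev f 5) := by decide +kernel
theorem DC_eq : ∀ e < 25, ∀ f < 25,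
    DC e f = 3 * ad (ev e 4) (ev f 4) + ad (ev e 3) (ev f 3) := by decide +kernel
theorem K_eq : ∀ e < 25, K e = ev e 0 + 16 * ev e 7 + 256 * nt e + 4096 * ot e +
    65536 * (ot e * ad (ev e 0) 1) := by decide +kernel
theorem M_eq : ∀ x < 9, ∀ y < 9, M x y = max (x / 3) (y / 3) + max (x % 3) (y % 3) := by
  decide +kernel
theorem Z_eq : ∀ s < 9, ∀ t < 9, Z (s + 16 * t) = ad s 4 + ad t 4 := by decide +kernel

theorem ev_le : ∀ e < 25, ∀ b < 8, ev e b ≤ 2 := by decide +kernel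
theorem ad_ev : ∀ e < 25, ∀ f < 25, ∀ b < 8, ad (ev e b) (ev f b) ≤ 2 := by decide +kernel
theorem nt_le (e : ℕ) : nt e ≤ 1 := by unfold nt; split <;> omega
theorem ot_le (e : ℕ) : ot e ≤ 1 := by unfold ot; split <;> omega

theorem M_ad {a b c d : ℕ} (ha : a ≤ 2) (hb : b ≤ 2) (hc : c ≤ 2) (hd : d ≤ 2) :
    M (3 * a + b) (3 * c + d) = max a c + max b d := by
  rw [M_eq _ (by omega) _ (by omega)]
  congr 1
  · congr 1 <;> omega
  · congr 1 <;> omega

theorem fin2_eq {N m o w c : ℕ} (h : fin2 N m o w c = true) :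
    m * (N + o) + (m - 1) * c ≤ m * (12 + (w + w)) := Nat.le_of_ble_eq_true h

theorem fin1_eq {N s t m o w : ℕ} (hs : s < 9) (ht : t < 9) (hm : m < 9) (ho : o < 9) (hw : w < 9)
    (h : fin1 N (s + 16 * t + 256 * m + 4096 * o + 65536 * w) = true) :
    m ≤ 1 ∨ m * (N + o) + (m - 1) * (ad s 4 + ad t 4) ≤ m * (12 + (w + w)) := by
  have h1 : Nat.land (s + 16 * t + 256 * m + 4096 * o + 65536 * w) 255 = s + 16 * t := by
    change (s + 16 * t + 256 * m + 4096 * o + 65536 * w) &&& (2 ^ 8 - 1) = s + 16 * t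
    rw [Nat.and_two_pow_sub_one_eq_mod]; omega
  have h2 : Nat.land (Nat.shiftRight (s + 16 * t + 256 * m + 4096 * o + 65536 * w) 8) 15 = m := by
    change ((s + 16 * t + 256 * m + 4096 * o + 65536 * w) >>> 8) &&& (2 ^ 4 - 1) = m
    rw [Nat.and_two_pow_sub_one_eq_mod, Nat.shiftRight_eq_div_pow]; omega
  have h3 : Nat.land (Nat.shiftRight (s + 16 * t + 256 * m + 4096 * o + 65536 * w) 12) 15 = o := by
    change ((s + 16 * t + 256 * m + 4096 * o + 65536 * w) >>> 12) &&& (2 ^ 4 - 1) = o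
    rw [Nat.and_two_pow_sub_one_eq_mod, Nat.shiftRight_eq_div_pow]; omega
  have h4 : Nat.shiftRight (s + 16 * t + 256 * m + 4096 * o + 65536 * w) 16 = w := by
    change ((s + 16 * t + 256 * m + 4096 * o + 65536 * w) >>> 16) = w
    rw [Nat.shiftRight_eq_div_pow]; omega
  unfold fin1 at h
  rw [h1, h2, h3, h4, Z_eq s hs t ht] at h
  cases hb : Nat.ble m 1 with
  | true => exact Or.inl (Nat.le_of_ble_eq_true hb)
  | false =>
    rw [hb] at h
    exact Or.inr (fin2_eq h)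

theorem allb_zero (p : ℕ → Bool) : allb p 0 = true := rfl
theorem allb_succ (p : ℕ → Bool) (n : ℕ) :
    allb p (n + 1) = Bool.rec false (allb p n) (p n) := rfl

theorem allb_spec (p : ℕ → Bool) (n : ℕ) (h : allb p n = true) : ∀ i < n, p i = true := by
  induction n with
  | zero => intro i hi; omega
  | succ n ih =>
    intro i hi
    rw [allb_succ] at h
    cases hp : p n with
    | false => rw [hp] at h; exact absurd h (by simp)
    | true =>
      rw [hp] at h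
      rcases Nat.lt_succ_iff_lt_or_eq.1 hi with h1 | h1
      · exact ih h i h1
      · rw [h1]; exact hp

theorem inner_all {e0 e1 e2 e3 : ℕ} (h0 : e0 < 25) (h1 : e1 ≤ e0) (h2 : e2 ≤ e0) (h3 : e3 ≤ e0) :
    inner e0 e1 e2 (DA e0 e2) (DB e1 e2) (DC e0 e1) (Nat.add (Nat.add (K e0) (K e1)) (K e2)) e3
      = true := by
  have a0 := allb_spec _ _ loops e0 h0
  unfold loop at a0
  have a1 := allb_spec _ _ a0 e1 (Nat.lt_succ_of_le h1)
  have a2 := allb_spec _ _ a1 e2 (Nat.lt_succ_of_le h2)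
  exact allb_spec _ _ a2 e3 (Nat.lt_succ_of_le h3)

theorem ineq_le {e0 e1 e2 e3 : ℕ} (h0 : e0 < 25) (h1 : e1 ≤ e0) (h2 : e2 ≤ e0) (h3 : e3 ≤ e0) :
    Ineq e0 e1 e2 e3 := by
  have g1 : e1 < 25 := by omega
  have g2 : e2 < 25 := by omega
  have g3 : e3 < 25 := by omega
  have h := inner_all h0 h1 h2 h3
  unfold inner at h
  rw [DA_eq e0 h0 e2 g2, DA_eq e1 g1 e3 g3, DB_eq e0 h0 e3 g3, DB_eq e1 g1 e2 g2,
    DC_eq e0 h0 e1 g1, DC_eq e2 g2 e3 g3, K_eq e0 h0, K_eq e1 g1, K_eq e2 g2, K_eq e3 g3,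
    M_ad (ad_ev _ h0 _ g2 _ (by norm_num)) (ad_ev _ h0 _ g2 _ (by norm_num))
      (ad_ev _ g1 _ g3 _ (by norm_num)) (ad_ev _ g1 _ g3 _ (by norm_num)),
    M_ad (ad_ev _ h0 _ g3 _ (by norm_num)) (ad_ev _ h0 _ g3 _ (by norm_num))
      (ad_ev _ g1 _ g2 _ (by norm_num)) (ad_ev _ g1 _ g2 _ (by norm_num)),
    M_ad (ad_ev _ h0 _ g1 _ (by norm_num)) (ad_ev _ h0 _ g1 _ (by norm_num))
      (ad_ev _ g2 _ g3 _ (by norm_num)) (ad_ev _ g2 _ g3 _ (by norm_num))] at h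
  have k : Nat.add (Nat.add (Nat.add (ev e0 0 + 16 * ev e0 7 + 256 * nt e0 + 4096 * ot e0 +
      65536 * (ot e0 * ad (ev e0 0) 1)) (ev e1 0 + 16 * ev e1 7 + 256 * nt e1 + 4096 * ot e1 +
      65536 * (ot e1 * ad (ev e1 0) 1))) (ev e2 0 + 16 * ev e2 7 + 256 * nt e2 + 4096 * ot e2 +
      65536 * (ot e2 * ad (ev e2 0) 1))) (ev e3 0 + 16 * ev e3 7 + 256 * nt e3 + 4096 * ot e3 +
      65536 * (ot e3 * ad (ev e3 0) 1)) =
      (ev e0 0 + ev e1 0 + ev e2 0 + ev e3 0) + 16 * (ev e0 7 + ev e1 7 + ev e2 7 + ev e3 7) +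
      256 * ms e0 e1 e2 e3 + 4096 * os e0 e1 e2 e3 + 65536 * ws e0 e1 e2 e3 := by
    unfold ms os ws
    simp only [Nat.add_eq]
    ring
  rw [k] at h
  have b0 := ev_le e0 h0 0 (by norm_num)
  have b1 := ev_le e1 g1 0 (by norm_num)
  have b2 := ev_le e2 g2 0 (by norm_num)
  have b3 := ev_le e3 g3 0 (by norm_num)
  have c0 := ev_le e0 h0 7 (by norm_num)
  have c1 := ev_le e1 g1 7 (by norm_num)
  have c2 := ev_le e2 g2 7 (by norm_num)
  have c3 := ev_le e3 g3 7 (by norm_num)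
  have hw : ∀ e < 25, ot e * ad (ev e 0) 1 ≤ 1 := by decide +kernel
  have d0 := hw e0 h0
  have d1 := hw e1 g1
  have d2 := hw e2 g2
  have d3 := hw e3 g3
  have n0 := nt_le e0
  have n1 := nt_le e1
  have n2 := nt_le e2
  have n3 := nt_le e3
  have o0 := ot_le e0
  have o1 := ot_le e1
  have o2 := ot_le e2
  have o3 := ot_le e3
  have r := fin1_eq (by omega) (by omega) (by unfold ms; omega) (by unfold os; omega)
    (by unfold ws; omega) h
  exact r

theorem ad_comm (x y : ℕ) : ad x y = ad y x := by unfold ad; omega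

theorem ineq_swap1 {a b c d : ℕ} (h : Ineq a b c d) : Ineq b a d c := by
  have e1 : ms b a d c = ms a b c d := by unfold ms; omega
  have e2 : os b a d c = os a b c d := by unfold os; omega
  have e3 : ws b a d c = ws a b c d := by unfold ws; omega
  have e4 : Cs b a d c = Cs a b c d := by
    unfold Cs
    rw [show ev b 0 + ev a 0 + ev d 0 + ev c 0 = ev a 0 + ev b 0 + ev c 0 + ev d 0 by omega,
      show ev b 7 + ev a 7 + ev d 7 + ev c 7 = ev a 7 + ev b 7 + ev c 7 + ev d 7 by omega]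
  have e5 : Ns b a d c = Ns a b c d := by
    unfold Ns mpn
    rw [max_comm (ad (ev b 1) (ev d 1)), max_comm (ad (ev b 6) (ev d 6)),
      max_comm (ad (ev b 2) (ev c 2)), max_comm (ad (ev b 5) (ev c 5)),
      ad_comm (ev b 4) (ev a 4), ad_comm (ev b 3) (ev a 3), ad_comm (ev d 4) (ev c 4),
      ad_comm (ev d 3) (ev c 3)]
  unfold Ineq
  rw [e1, e2, e3, e4, e5]
  exact h

theorem ineq_swap2 {a b c d : ℕ} (h : Ineq a b c d) : Ineq c d a b := by
  have e1 : ms c d a b = ms a b c d := by unfold ms; omega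
  have e2 : os c d a b = os a b c d := by unfold os; omega
  have e3 : ws c d a b = ws a b c d := by unfold ws; omega
  have e4 : Cs c d a b = Cs a b c d := by
    unfold Cs
    rw [show ev c 0 + ev d 0 + ev a 0 + ev b 0 = ev a 0 + ev b 0 + ev c 0 + ev d 0 by omega,
      show ev c 7 + ev d 7 + ev a 7 + ev b 7 = ev a 7 + ev b 7 + ev c 7 + ev d 7 by omega]
  have e5 : Ns c d a b = Ns a b c d := by
    unfold Ns mpn
    rw [ad_comm (ev c 1) (ev a 1), ad_comm (ev d 1) (ev b 1), ad_comm (ev c 6) (ev a 6),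
      ad_comm (ev d 6) (ev b 6), ad_comm (ev c 2) (ev b 2), ad_comm (ev d 2) (ev a 2),
      ad_comm (ev c 5) (ev b 5), ad_comm (ev d 5) (ev a 5),
      max_comm (ad (ev b 2) (ev c 2)), max_comm (ad (ev b 5) (ev c 5)),
      max_comm (ad (ev c 4) (ev d 4)), max_comm (ad (ev c 3) (ev d 3))]
  unfold Ineq
  rw [e1, e2, e3, e4, e5]
  exact h

/-- the inequality for all quadruples of codes -/
theorem ineq_all {e0 e1 e2 e3 : ℕ} (h0 : e0 < 25) (h1 : e1 < 25) (h2 : e2 < 25) (h3 : e3 < 25) :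
    Ineq e0 e1 e2 e3 := by
  by_cases q0 : e1 ≤ e0 ∧ e2 ≤ e0 ∧ e3 ≤ e0
  · exact ineq_le h0 q0.1 q0.2.1 q0.2.2
  by_cases q1 : e0 ≤ e1 ∧ e3 ≤ e1 ∧ e2 ≤ e1
  · exact ineq_swap1 (ineq_le h1 q1.1 q1.2.1 q1.2.2)
  by_cases q2 : e3 ≤ e2 ∧ e0 ≤ e2 ∧ e1 ≤ e2
  · exact ineq_swap2 (ineq_le h2 q2.1 q2.2.1 q2.2.2)
  · exact ineq_swap1 (ineq_swap2 (ineq_le h3 (by omega) (by omega) (by omega)))

end Pool.Agent.Lib.MP_e6e31f_sep
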